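import Pool.Agent.Z34.Defs
import Pool.Agent.Z23.Move
import Pool.Agent.D23.Parts
import Pool.Agent.D23.Tele

/-!
# The linear form in 1 and zeta(4) from the derivative of the function

`Iint m (deriv (G n j))` has the same leading coefficient as the form in zeta(3).
-/

open Finset Filter Topology Complex MeasureTheory
open scoped BigOperators

namespace Pool.Agent.Z34

open Pool.Agent.Z3
open Pool.Agent.Z23 (pfun ipole_integrable)
open Pool.Agent.D23 (HG Th ln abs_Th Iint_deriv isOpen_half)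

/-- the derivative of a function given by partial fractions -/
noncomputable def dfun (K : Finset ℕ) (α β : ℕ → ℚ) (t : ℂ) : ℂ :=
  ∑ k ∈ K, (((-2 * α k : ℚ) : ℂ) / (t + (k : ℂ)) ^ 3 + ((-β k : ℚ) : ℂ) / (t + (k : ℂ)) ^ 2)

theorem pfun_hasDeriv (K : Finset ℕ) (α β : ℕ → ℚ) (a : ℕ) (ha : ∀ k ∈ K, a ≤ k) (t : ℂ)
    (ht : -(a : ℝ) < t.re) : HasDerivAt (pfun K α β) (dfun K α β t) t := by
  unfold pfun dfun
  refine HasDerivAt.fun_sum (fun k hk => ?_)
  have hne : t + (k : ℂ) ≠ 0 := Z23.ne_of_re a k (ha k hk) ht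
  have h1 : HasDerivAt (fun t : ℂ => t + (k : ℂ)) 1 t := (hasDerivAt_id t).add_const (k : ℂ)
  have h2 : HasDerivAt (fun t : ℂ => (t + (k : ℂ)) ^ 2) (2 * (t + (k : ℂ))) t := by
    have := h1.fun_pow 2
    simpa using this
  refine ((((hasDerivAt_const t (α k : ℂ)).fun_div h2 (pow_ne_zero _ hne)).fun_add
    ((hasDerivAt_const t (β k : ℂ)).fun_div h1 hne))).congr_deriv ?_
  push_cast
  field_simp
  ring

theorem Iint_dfun (m : ℤ) (K : Finset ℕ) (α β : ℕ → ℚ) (a : ℕ) (ha : ∀ k ∈ K, a ≤ k)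
    (hm : 1 ≤ m + a) :
    Iint m (dfun K α β) = ∑ k ∈ K,
      (((-2 * α k : ℚ) : ℂ) * Iint m (fun t => 1 / (t + ((k : ℤ) : ℂ)) ^ 3) +
      ((-β k : ℚ) : ℂ) * Iint m (fun t => 1 / (t + ((k : ℤ) : ℂ)) ^ 2)) := by
  unfold Iint
  have h1 : ∀ y : ℝ, dfun K α β ((m : ℂ) - 1 / 2 + (y : ℂ) * Complex.I) * (Ker y : ℂ) =
      ∑ k ∈ K, (((-2 * α k : ℚ) : ℂ) / (((m : ℂ) - 1 / 2 + (y : ℂ) * Complex.I) + (k : ℂ)) ^ 3 *
        (Ker y : ℂ) +
        ((-β k : ℚ) : ℂ) / (((m : ℂ) - 1 / 2 + (y : ℂ) * Complex.I) + (k : ℂ)) ^ 2 * (Ker y : ℂ)) := by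
    intro y
    rw [dfun, sum_mul]
    apply sum_congr rfl
    intro k _
    rw [add_mul]
  simp_rw [h1]
  have hmk : ∀ k ∈ K, (1 : ℤ) ≤ m + k := fun k hk => by
    have := ha k hk
    omega
  rw [MeasureTheory.integral_finsetSum]
  · apply sum_congr rfl
    intro k hk
    rw [MeasureTheory.integral_add (ipole_integrable m k 3 (hmk k hk) _)
      (ipole_integrable m k 2 (hmk k hk) _)]
    congr 1
    · rw [← MeasureTheory.integral_const_mul]
      congr 1
      funext y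
      push_cast
      ring
    · rw [← MeasureTheory.integral_const_mul]
      congr 1
      funext y
      push_cast
      ring
  · intro k hk
    exact (ipole_integrable m k 3 (hmk k hk) _).add (ipole_integrable m k 2 (hmk k hk) _)

/-- the form on the line Re t = 1/2 - a -/
theorem dfun_form (K : Finset ℕ) (α β : ℕ → ℚ) (a : ℕ) (ha : ∀ k ∈ K, a ≤ k)
    (hβ : ∑ k ∈ K, β k = 0) :
    Iint (-(a : ℤ) + 1) (dfun K α β) =
      ((∑ k ∈ K, (6 * α k * H 4 (k - a) + 2 * β k * H 3 (k - a)) : ℚ) : ℂ) -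
      3 * ((2 * ∑ k ∈ K, α k : ℚ) : ℂ) * (zeta4 : ℂ) := by
  rw [Iint_dfun _ K α β a ha (by omega)]
  have h2 : ∀ k ∈ K, (((-2 * α k : ℚ) : ℂ) * Iint (-(a : ℤ) + 1) (fun t => 1 / (t + ((k : ℤ) : ℂ)) ^ 3) +
      ((-β k : ℚ) : ℂ) * Iint (-(a : ℤ) + 1) (fun t => 1 / (t + ((k : ℤ) : ℂ)) ^ 2)) =
      (6 * (α k : ℂ) * ((H 4 (k - a) : ℚ) : ℂ) + 2 * (β k : ℂ) * ((H 3 (k - a) : ℚ) : ℂ)) -
      6 * (α k : ℂ) * (zeta4 : ℂ) - 2 * (β k : ℂ) * (zeta3 : ℂ) := by
    intro k hk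
    have hk1 := ha k hk
    have h3 : ((-(a : ℤ) + 1) + (k : ℤ) - 1).toNat = k - a := by omega
    rw [Z3.pole_main _ _ 3 (by norm_num) (by omega), Z3.Iint_pole2 _ _ (by omega), h3]
    have h4 : (∑' i : ℕ, 1 / ((i : ℝ) + 1) ^ (3 + 1)) = zeta4 := rfl
    rw [h4]
    push_cast
    ring
  rw [sum_congr rfl h2, sum_sub_distrib, sum_sub_distrib, ← sum_mul, ← sum_mul, ← mul_sum,
    ← mul_sum]
  have h4 : ∑ k ∈ K, (β k : ℂ) = 0 := by exact_mod_cast hβ
  rw [h4]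
  push_cast
  ring

/-! ### the function of the zeta(3) project -/

theorem G_HG (n j : ℕ) (hn : 1 ≤ n) (hj : j ≤ 3) : HG (-(19 * (n : ℝ)) + 1 / 4) (G n j) := by
  constructor
  · refine (G_diffOn n j hn hj).mono (fun t ht => ?_)
    simp only [Set.mem_ofPred_eq] at ht ⊢
    linarith
  · refine ⟨∑ k ∈ K1 n, (‖(A n j k : ℂ)‖ * 16 + ‖(B n j k : ℂ)‖ * 4), 0, fun t ht => ?_⟩
    rw [pow_zero, mul_one, partial_fraction n j hn hj t (fun k hk => ne_of_re hk (by linarith))]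
    apply (norm_sum_le _ _).trans
    apply sum_le_sum
    intro k hk
    have h3 : (1 / 4 : ℝ) ≤ ‖t + (k : ℂ)‖ := by
      have h4 := Complex.re_le_norm (t + (k : ℂ))
      have h2 : (19 * (n : ℝ)) ≤ k := by exact_mod_cast K1_ge hk
      simp only [Complex.add_re, Complex.natCast_re] at h4
      linarith
    have h5 : (0 : ℝ) < ‖t + (k : ℂ)‖ := by linarith
    apply (norm_add_le _ _).trans
    apply add_le_add
    · rw [norm_div, norm_pow, div_le_iff₀ (by positivity), mul_assoc]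
      calc ‖(A n j k : ℂ)‖ = ‖(A n j k : ℂ)‖ * (16 * (1 / 4) ^ 2) := by norm_num
        _ ≤ _ := by gcongr
    · rw [norm_div, div_le_iff₀ (by positivity), mul_assoc]
      calc ‖(B n j k : ℂ)‖ = ‖(B n j k : ℂ)‖ * (4 * (1 / 4)) := by norm_num
        _ ≤ _ := by gcongr

theorem G_pfun (n j : ℕ) (hn : 1 ≤ n) (hj : j ≤ 3) (t : ℂ) (ht : -(19 * (n : ℝ)) < t.re) :
    G n j t = pfun (K1 n) (A n j) (B n j) t :=
  partial_fraction n j hn hj t (fun _ hk => ne_of_re hk ht)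

theorem G_hasDeriv (n j : ℕ) (hn : 1 ≤ n) (hj : j ≤ 3) (t : ℂ) (ht : -(19 * (n : ℝ)) < t.re) :
    HasDerivAt (G n j) (dfun (K1 n) (A n j) (B n j) t) t := by
  have h1 := pfun_hasDeriv (K1 n) (A n j) (B n j) (19 * n) (fun _ hk => K1_ge hk) t
    (by push_cast; exact ht)
  refine h1.congr_of_eventuallyEq ?_
  filter_upwards [(isOpen_half (-(19 * (n : ℝ)))).mem_nhds ht] with z hz using G_pfun n j hn hj z hz

theorem G_deriv_eq (n j : ℕ) (hn : 1 ≤ n) (hj : j ≤ 3) (t : ℂ) (ht : -(19 * (n : ℝ)) < t.re) :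
    deriv (G n j) t = ∑ k ∈ K1 n, (-(2 * (A n j k : ℂ)) / (t + (k : ℂ)) ^ 3 -
      (B n j k : ℂ) / (t + (k : ℂ)) ^ 2) := by
  rw [(G_hasDeriv n j hn hj t ht).deriv]
  unfold dfun
  refine sum_congr rfl (fun k _ => ?_)
  push_cast
  ring

theorem G_deriv_growth (m : ℤ) (n j : ℕ) (hn : 1 ≤ n) (hj : j ≤ 3) (hm : 1 ≤ m + 19 * n) :
    PolyGrowth m (deriv (G n j)) := by
  have h1 : HG (-(19 * (n : ℝ)) + 3 / 8) (deriv (G n j)) := (G_HG n j hn hj).deriv (by linarith)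
  refine h1.polyGrowth m ?_
  have hm' : (1 : ℝ) ≤ (m : ℝ) + 19 * n := by exact_mod_cast hm
  linarith

/-- triple zeros: the second derivative vanishes -/
theorem G_deriv2_zero (n j i : ℕ) (hn : 1 ≤ n) (h1 : 4 * n ≤ i) (h2 : i < 13 * n) :
    deriv (deriv (G n j)) (((-(i : ℤ) : ℤ)) : ℂ) = 0 := by
  have hi : (i : ℝ) + 1 ≤ 13 * n := by exact_mod_cast h2
  have hn0 : (1 : ℝ) ≤ n := by exact_mod_cast hn
  have hx : -(19 * (n : ℝ)) < (((-(i : ℤ) : ℤ)) : ℂ).re := by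
    rw [Complex.intCast_re]
    push_cast
    linarith
  have hne : ∀ K : Finset ℕ, (∀ k ∈ K, 19 * n ≤ k) → ∀ t : ℂ, -(19 * (n : ℝ)) < t.re →
      ∏ k ∈ K, (t + (k : ℂ)) ≠ 0 := by
    intro K hK t ht
    rw [prod_ne_zero_iff]
    intro k hk
    exact Z23.ne_of_re (19 * n) k (hK k hk) (by push_cast; exact ht)
  have hK2 : ∀ k ∈ K2 n, 19 * n ≤ k := by
    intro k hk
    unfold K2 at hk
    rw [mem_Ico] at hk
    omega
  have key : iteratedDeriv 2 (G n j : ℂ → ℂ) (((-(i : ℤ) : ℤ)) : ℂ) = 0 := by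
    refine D23.iteratedDeriv_zero_of_factor (isOpen_half (-(19 * (n : ℝ)))) hx 2 3
      (fun t : ℂ => (kap n : ℂ) * t ^ j * ((∏ l ∈ (N1 n).erase i, (t + (l : ℂ))) *
        (∏ l ∈ (N2 n).erase i, (t + (l : ℂ))) * ∏ l ∈ (N3 n).erase i, (t + (l : ℂ))) / den n t)
      (G n j) (by norm_num) ?_ ?_
    · intro t ht
      apply DifferentiableAt.differentiableWithinAt
      apply DifferentiableAt.div
      · fun_prop
      · unfold den
        fun_prop
      · unfold den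
        exact mul_ne_zero (hne _ (fun k hk => K1_ge hk) t ht) (hne _ hK2 t ht)
    · intro t _
      have e1 : ∏ l ∈ N1 n, (t + (l : ℂ)) = (t + (i : ℂ)) * ∏ l ∈ (N1 n).erase i, (t + (l : ℂ)) :=
        (mul_prod_erase (N1 n) (fun l : ℕ => t + (l : ℂ)) (by unfold N1; rw [mem_Ico]; omega)).symm
      have e2 : ∏ l ∈ N2 n, (t + (l : ℂ)) = (t + (i : ℂ)) * ∏ l ∈ (N2 n).erase i, (t + (l : ℂ)) :=
        (mul_prod_erase (N2 n) (fun l : ℕ => t + (l : ℂ)) (by unfold N2; rw [mem_Ico]; omega)).symm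
      have e3 : ∏ l ∈ N3 n, (t + (l : ℂ)) = (t + (i : ℂ)) * ∏ l ∈ (N3 n).erase i, (t + (l : ℂ)) :=
        (mul_prod_erase (N3 n) (fun l : ℕ => t + (l : ℂ)) (by unfold N3; rw [mem_Ico]; omega)).symm
      unfold G num
      rw [e1, e2, e3]
      push_cast
      ring
  rw [iteratedDeriv_succ, iteratedDeriv_one] at key
  exact key

/-- moving the line of the derivative across triple zeros -/
theorem Iint_deriv_move (n j : ℕ) (hn : 1 ≤ n) (hj : j ≤ 3) (M : ℕ) (m : ℤ)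
    (h1 : -(13 * (n : ℤ)) + 1 ≤ m) (h2 : m + M ≤ -(4 * (n : ℤ)) + 1) :
    Iint m (deriv (G n j)) = Iint (m + M) (deriv (G n j)) := by
  have hn0 : (1 : ℝ) ≤ n := by exact_mod_cast hn
  have hHG : HG (-(19 * (n : ℝ)) + 1 / 2) (deriv (G n j)) := (G_HG n j hn hj).deriv (by linarith)
  have hstep : ∀ i : ℕ, i < M → Iint (m + i) (deriv (G n j)) - Iint (m + i + 1) (deriv (G n j)) =
      - deriv (deriv (G n j)) ((m + i : ℤ) : ℂ) := by
    intro i _
    refine hHG.shift (m + i) ?_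
    have : (-(13 * (n : ℝ)) + 1) ≤ ((m + i : ℤ) : ℝ) := by
      have : -(13 * (n : ℤ)) + 1 ≤ m + i := by omega
      exact_mod_cast this
    linarith
  rw [Iint_telescope m (deriv (G n j)) M hstep]
  have : ∑ i ∈ range M, (- deriv (deriv (G n j)) ((m + i : ℤ) : ℂ)) = 0 := by
    apply sum_eq_zero
    intro i hi
    rw [mem_range] at hi
    obtain ⟨r, hr⟩ : ∃ r : ℕ, m + i = -(r : ℤ) := ⟨(-(m + i)).toNat, by omega⟩
    rw [hr, G_deriv2_zero n j r hn (by omega) (by omega), neg_zero]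
  rw [this, add_zero]

/-- the linear form in 1 and zeta(4), before the sign -/
theorem F4_eq' (N j : ℕ) (hN : 1 ≤ N) (hj : j ≤ 2) :
    Iint (-(25 * (N : ℤ))) (deriv (G (4 * N) j)) =
      ((b4 (4 * N) j : ℚ) : ℂ) - 3 * ((a (4 * N) j : ℚ) : ℂ) * (zeta4 : ℂ) := by
  have h1 : Iint (-((13 * (4 * N) : ℕ) : ℤ) + 1) (deriv (G (4 * N) j)) =
      Iint (-(25 * (N : ℤ))) (deriv (G (4 * N) j)) := by
    have := Iint_deriv_move (4 * N) j (by omega) (by omega) (27 * N - 1)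
      (-((13 * (4 * N) : ℕ) : ℤ) + 1) (by push_cast; omega) (by push_cast; omega)
    rw [this]
    congr 1
    omega
  have h2 : Iint (-((13 * (4 * N) : ℕ) : ℤ) + 1) (deriv (G (4 * N) j)) =
      Iint (-((13 * (4 * N) : ℕ) : ℤ) + 1) (dfun (K1 (4 * N)) (A (4 * N) j) (B (4 * N) j)) := by
    unfold Iint
    congr 1
    funext y
    rw [(G_hasDeriv (4 * N) j (by omega) (by omega) _ ?_).deriv]
    rw [line_re]
    have : (1 : ℝ) ≤ N := by exact_mod_cast hN
    push_cast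
    linarith
  have hK : ∀ k ∈ K1 (4 * N), 13 * (4 * N) ≤ k := by
    intro k hk
    have := K1_ge hk
    omega
  rw [← h1, h2, dfun_form (K1 (4 * N)) _ _ (13 * (4 * N)) hK (sum_B (4 * N) j (by omega) hj)]
  rfl

/-- **the linear form in 1 and zeta(4)** -/
theorem F4_eq (N j : ℕ) (hN : 1 ≤ N) (hj : j ≤ 2) :
    F4 N j = ((a (4 * N) j : ℚ) : ℂ) * ((3 * zeta4 : ℝ) : ℂ) - ((b4 (4 * N) j : ℚ) : ℂ) := by
  unfold F4
  rw [F4_eq' N j hN hj]
  push_cast
  ring

/-- the derivative form as an integral of the function itself -/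
theorem D_eq (N j : ℕ) (hN : 1 ≤ N) (hj : j ≤ 2) :
    Iint (-(25 * (N : ℤ))) (deriv (G (4 * N) j)) =
      ∫ y : ℝ, G (4 * N) j (ln (-(25 * (N : ℤ))) y) *
        (-(2 * Real.pi) * Complex.I * (Th y : ℂ) * (Ker y : ℂ)) := by
  have hHG := G_HG (4 * N) j (by omega) (by omega)
  have hN0 : (1 : ℝ) ≤ N := by exact_mod_cast hN
  have hx : -(19 * ((4 * N : ℕ) : ℝ)) + 1 / 2 < ((-(25 * (N : ℤ)) : ℤ) : ℝ) - 1 / 2 := by
    push_cast
    linarith
  have hHG' : HG (-(19 * ((4 * N : ℕ) : ℝ)) + 1 / 2) (deriv (G (4 * N) j)) := hHG.deriv (by linarith)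
  refine Iint_deriv _ (G (4 * N) j) (deriv (G (4 * N) j)) (fun t ht => ?_) (fun t ht => ?_)
    (hHG.polyGrowth _ (by linarith)) (hHG'.polyGrowth _ hx)
  · exact (hHG.differentiableAt (by rw [ht]; linarith)).hasDerivAt
  · exact (hHG'.differentiableAt (by rw [ht]; exact hx)).continuousAt

/-- bound of the derivative form by a bound of the function on the line -/
theorem norm_deriv_le (N j : ℕ) (hN : 1 ≤ N) (hj : j ≤ 2) (C : ℝ)
    (h : ∀ y : ℝ, ‖G (4 * N) j (ln (-(25 * (N : ℤ))) y)‖ ≤ C) :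
    ‖Iint (-(25 * (N : ℤ))) (deriv (G (4 * N) j))‖ ≤ 2 * Real.pi * C := by
  rw [D_eq N j hN hj]
  calc ‖∫ y : ℝ, G (4 * N) j (ln (-(25 * (N : ℤ))) y) *
        (-(2 * Real.pi) * Complex.I * (Th y : ℂ) * (Ker y : ℂ))‖
      ≤ ∫ y : ℝ, ‖G (4 * N) j (ln (-(25 * (N : ℤ))) y) *
        (-(2 * Real.pi) * Complex.I * (Th y : ℂ) * (Ker y : ℂ))‖ := norm_integral_le_integral_norm _
    _ ≤ ∫ y : ℝ, (2 * Real.pi * C) * Ker y := by
        apply integral_mono_of_nonneg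
        · exact Filter.Eventually.of_forall (fun y => norm_nonneg _)
        · exact integrable_Ker.const_mul _
        · refine Filter.Eventually.of_forall (fun y => ?_)
          simp only
          have h1 : ‖(-(2 * Real.pi) * Complex.I * (Th y : ℂ) * (Ker y : ℂ))‖ ≤
              2 * Real.pi * Ker y := by
            rw [norm_mul, norm_mul, norm_mul, norm_neg, norm_mul, Complex.norm_I, Complex.norm_real,
              Complex.norm_real, Complex.norm_real, Real.norm_eq_abs, Real.norm_eq_abs,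
              Real.norm_eq_abs, abs_of_pos Real.pi_pos, abs_of_pos (Ker_pos y)]
            have h2 := (abs_Th y).le
            have h3 := Ker_pos y
            have h4 := Real.pi_pos
            have h5 : ‖(2 : ℂ)‖ = 2 := by simp
            rw [h5, mul_one]
            have h6 : 2 * Real.pi * |Th y| ≤ 2 * Real.pi * 1 := by gcongr
            nlinarith
          rw [norm_mul]
          calc ‖G (4 * N) j (ln (-(25 * (N : ℤ))) y)‖ *
                ‖(-(2 * Real.pi) * Complex.I * (Th y : ℂ) * (Ker y : ℂ))‖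
              ≤ C * (2 * Real.pi * Ker y) :=
                mul_le_mul (h y) h1 (norm_nonneg _) ((norm_nonneg _).trans (h y))
            _ = 2 * Real.pi * C * Ker y := by ring
    _ = 2 * Real.pi * C := by rw [integral_const_mul, integral_Ker, mul_one]

end Pool.Agent.Z34
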