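import Pool.Agent.Z34.Deriv
import Pool.Agent.Z34.Form4
import Pool.Agent.Z3.FBound2

/-!
# The upper bound for the form in zeta(4)
-/

open Finset Filter Topology Complex
open scoped BigOperators

namespace Pool.Agent.Z34

open Pool.Agent.Z3

/-- the bound of the form in zeta(4) -/
theorem F4_bound2 : ∃ C : ℝ, ∃ D : ℕ, ∀ N j : ℕ, 1 ≤ N → j ≤ 2 →
    ‖F4 N j‖ ≤ C * (N : ℝ) ^ D * Real.exp (-(257.58 * N)) := by
  obtain ⟨K, HK⟩ := FB_pointwise
  set Q : ℝ := 10 ^ (K + 2) * ((K + 2).factorial : ℝ) * Real.exp (1 / 10) with hQ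
  refine ⟨1000 ^ K * 13 ^ (K + 2) * Q * (2 * Real.pi) * Real.pi, K + (K + 2), fun N j hN hj => ?_⟩
  have hN' : (1 : ℝ) ≤ N := by exact_mod_cast hN
  set M : ℝ := 1000 ^ K * 13 ^ (K + 2) * Q * (N : ℝ) ^ (K + (K + 2)) * Real.exp (-(257.58 * N)) with hM
  have hpt : ∀ y : ℝ, ‖G (4 * N) j (FBt N y) * (Complex.I * ((dKer y : ℝ) : ℂ))‖ ≤
      (2 * Real.pi) * (M * (1 + y ^ 2)⁻¹) := by
    intro y
    have hker0 : 0 ≤ Ker y := (Ker_pos y).le
    have hd := dKer_abs y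
    rw [norm_mul, norm_mul, Complex.norm_I, one_mul, Complex.norm_real, Real.norm_eq_abs]
    have h0 : ‖G (4 * N) j (FBt N y)‖ * |dKer y| ≤
        (2 * Real.pi) * (‖G (4 * N) j (FBt N y)‖ * Ker y) := by
      calc ‖G (4 * N) j (FBt N y)‖ * |dKer y| ≤ ‖G (4 * N) j (FBt N y)‖ * (2 * Real.pi * Ker y) :=
            mul_le_mul_of_nonneg_left hd (norm_nonneg _)
        _ = _ := by ring
    refine h0.trans (mul_le_mul_of_nonneg_left ?_ Real.two_pi_pos.le)
    refine le_trans (HK N j hN hj y) ?_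
    set z := |y| with hz
    have hz0 : 0 ≤ z := abs_nonneg y
    have hzy : z ^ 2 = y ^ 2 := sq_abs y
    have h1 : Real.exp ((N : ℝ) * Psi (z / N)) ≤
        Real.exp (-(257.58 * N)) * Real.exp (-(max 0 (z - 12 * N) / 10)) := by
      rw [← Real.exp_add]
      exact Real.exp_le_exp.2 (FB_decay2 N hN z hz0)
    have h2 : (1000 * ((N : ℝ) + z)) ^ K ≤ (1000 * N) ^ K * (1 + z) ^ K := by
      rw [← mul_pow]
      refine pow_le_pow_left₀ (by positivity) ?_ K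
      nlinarith
    have h3 := FB_growth (K + 2) N hN z hz0
    rw [← hQ] at h3
    have h4 : (1 + z) ^ K * Real.exp (-(max 0 (z - 12 * N) / 10)) ≤
        (13 * (N : ℝ)) ^ (K + 2) * Q * (1 + y ^ 2)⁻¹ := by
      rw [← div_eq_mul_inv, le_div_iff₀ (by positivity)]
      refine le_trans ?_ h3
      rw [← hzy, pow_add]
      have h5 : 1 + z ^ 2 ≤ (1 + z) ^ 2 := by nlinarith
      have h6 : 0 ≤ (1 + z) ^ K * Real.exp (-(max 0 (z - 12 * N) / 10)) := by positivity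
      calc (1 + z) ^ K * Real.exp (-(max 0 (z - 12 * N) / 10)) * (1 + z ^ 2)
          ≤ (1 + z) ^ K * Real.exp (-(max 0 (z - 12 * N) / 10)) * (1 + z) ^ 2 :=
            mul_le_mul_of_nonneg_left h5 h6
        _ = (1 + z) ^ K * (1 + z) ^ 2 * Real.exp (-(max 0 (z - 12 * N) / 10)) := by ring
    calc (1000 * ((N : ℝ) + z)) ^ K * Real.exp (N * Psi (z / N))
        ≤ ((1000 * N) ^ K * (1 + z) ^ K) *
          (Real.exp (-(257.58 * N)) * Real.exp (-(max 0 (z - 12 * N) / 10))) := by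
          gcongr
      _ = (1000 * N) ^ K * Real.exp (-(257.58 * N)) *
          ((1 + z) ^ K * Real.exp (-(max 0 (z - 12 * N) / 10))) := by ring
      _ ≤ (1000 * N) ^ K * Real.exp (-(257.58 * N)) *
          ((13 * (N : ℝ)) ^ (K + 2) * Q * (1 + y ^ 2)⁻¹) :=
          mul_le_mul_of_nonneg_left h4 (by positivity)
      _ = M * (1 + y ^ 2)⁻¹ := by
          rw [hM, mul_pow, mul_pow, pow_add (N : ℝ) K (K + 2)]; ring
  have hint : MeasureTheory.Integrable (fun y : ℝ => (2 * Real.pi) * (M * (1 + y ^ 2)⁻¹)) :=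
    (integrable_inv_one_add_sq.const_mul M).const_mul (2 * Real.pi)
  have hfin := MeasureTheory.norm_integral_le_of_norm_le hint (MeasureTheory.ae_of_all _ hpt)
  rw [MeasureTheory.integral_const_mul, MeasureTheory.integral_const_mul,
    integral_univ_inv_one_add_sq] at hfin
  have hn4 : 1 ≤ 4 * N := by omega
  have hU : IsOpen {t : ℂ | -(19 * ((4 * N : ℕ) : ℝ)) < t.re} :=
    isOpen_lt continuous_const Complex.continuous_re
  have hre : ∀ t : ℂ, t.re = (((-(25 * (N : ℤ))) : ℤ) : ℝ) - 1 / 2 →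
      t ∈ {t : ℂ | -(19 * ((4 * N : ℕ) : ℝ)) < t.re} := by
    intro t ht
    simp only [Set.mem_ofPred_eq]
    rw [ht]
    push_cast
    linarith
  have hgr : ∀ g : ℂ → ℂ, PolyGrowth (-(25 * (N : ℤ))) g → ∃ C : ℝ, ∃ d : ℕ, ∀ y : ℝ,
      ‖g (((-(25 * (N : ℤ)) : ℤ) : ℂ) - 1 / 2 + (y : ℂ) * Complex.I)‖ ≤ C * (1 + |y|) ^ d := by
    intro g ⟨C, d, hC⟩
    refine ⟨C, d, fun y => ?_⟩
    have := hC (((-(25 * (N : ℤ)) : ℤ) : ℂ) - 1 / 2 + (y : ℂ) * Complex.I) (by rw [line_re])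
      (by rw [line_re]; linarith)
    rwa [line_im] at this
  have hparts := Iint_deriv (-(25 * (N : ℤ))) (G (4 * N) j) _ hU hre
    (G_diffOn (4 * N) j hn4 (by omega))
    (hgr _ (G_growth _ (4 * N) j hn4 (by omega) (by push_cast; omega)))
    (hgr _ (G_deriv_growth _ (4 * N) j hn4 (by omega) (by push_cast; omega)))
  unfold F4
  rw [norm_neg, hparts]
  refine le_trans (le_of_eq ?_) (le_trans hfin (le_of_eq ?_))
  · rfl
  · rw [hM]; ring

/-- the weaker constant of the skeleton -/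
theorem F4_bound : ∃ C : ℝ, ∃ D : ℕ, ∀ N j : ℕ, 1 ≤ N → j ≤ 2 →
    ‖F4 N j‖ ≤ C * (N : ℝ) ^ D * Real.exp (-(257.56 * N)) := by
  obtain ⟨C, D, h⟩ := F4_bound2
  refine ⟨|C|, D, fun N j hN hj => (h N j hN hj).trans ?_⟩
  have hN0 : (0 : ℝ) ≤ N := Nat.cast_nonneg N
  have h1 : Real.exp (-(257.58 * (N : ℝ))) ≤ Real.exp (-(257.56 * N)) :=
    Real.exp_le_exp.mpr (by linarith)
  calc C * (N : ℝ) ^ D * Real.exp (-(257.58 * N)) ≤ |C| * (N : ℝ) ^ D * Real.exp (-(257.58 * N)) := by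
        gcongr
        exact le_abs_self C
    _ ≤ |C| * (N : ℝ) ^ D * Real.exp (-(257.56 * N)) := by gcongr

end Pool.Agent.Z34
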