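import Pool.Agent.Z34.Defs
import Pool.Agent.Z3.Cancel

/-!
The cancellation in the gap for the rational parts of the forms in zeta(4).
-/

open Finset
open scoped BigOperators

namespace Pool.Agent.Z34

open Pool.Agent.Z3 Pool.Agent.Z3.CancelAux

/-- comparison with a point whose residue is not strictly inside the gap -/
private theorem cg_le_iff {p s1 s2 k k' c : ℕ} (hp : 0 < p) (h1 : s1 ≤ k % p) (h2 : k % p < s2)
    (h1' : s1 ≤ k' % p) (h2' : k' % p < s2) (hkk : k / p = k' / p)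
    (hc : c % p ≤ s1 ∨ s2 ≤ c % p) : c ≤ k ↔ c ≤ k' := by
  have e1 := Nat.div_add_mod k p
  have e2 := Nat.div_add_mod k' p
  have e3 := Nat.div_add_mod c p
  rw [← hkk] at e2
  have m1 := Nat.mod_lt k hp
  have m2 := Nat.mod_lt k' hp
  have m3 := Nat.mod_lt c hp
  rcases lt_trichotomy (c / p) (k / p) with h | h | h
  · have h5 : p * (c / p) + p ≤ p * (k / p) := by
      calc p * (c / p) + p = p * (c / p + 1) := by ring
        _ ≤ p * (k / p) := Nat.mul_le_mul_left _ h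
    constructor <;> intro _ <;> omega
  · rw [h] at e3
    rcases hc with hc | hc
    · constructor <;> intro _ <;> omega
    · constructor <;> intro _ <;> omega
  · have h5 : p * (k / p) + p ≤ p * (c / p) := by
      calc p * (k / p) + p = p * (k / p + 1) := by ring
        _ ≤ p * (c / p) := Nat.mul_le_mul_left _ h
    constructor <;> intro _ <;> omega

/-- the block quotients -/
private theorem cg_div {p s1 s2 k k' c : ℕ} (hp : 0 < p) (h1 : s1 ≤ k % p) (h2 : k % p < s2)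
    (h1' : s1 ≤ k' % p) (h2' : k' % p < s2) (hkk : k / p = k' / p)
    (hc : c % p ≤ s1 ∨ s2 ≤ c % p) : (k - c) / p = (k' - c) / p := by
  have hle := cg_le_iff hp h1 h2 h1' h2' hkk hc
  by_cases h : c ≤ k
  · have h' := hle.1 h
    have e1 := Nat.div_add_mod k p
    have e2 := Nat.div_add_mod k' p
    have e3 := Nat.div_add_mod c p
    rw [← hkk] at e2
    have m1 := Nat.mod_lt k hp
    have m2 := Nat.mod_lt k' hp
    have m3 := Nat.mod_lt c hp
    have hq : c / p ≤ k / p := Nat.div_le_div_right h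
    obtain ⟨t, ht⟩ := Nat.exists_eq_add_of_le hq
    have hpt : p * (k / p) = p * (c / p) + p * t := by rw [ht]; ring
    rcases hc with hc | hc
    · have a1 : k - c = p * t + (k % p - c % p) := by omega
      have a2 : k' - c = p * t + (k' % p - c % p) := by omega
      rw [a1, a2, Nat.mul_add_div hp, Nat.mul_add_div hp, Nat.div_eq_of_lt (by omega),
        Nat.div_eq_of_lt (by omega)]
    · have ht1 : 1 ≤ t := by
        by_contra h0
        have : t = 0 := by omega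
        rw [this, Nat.mul_zero, Nat.add_zero] at hpt
        omega
      obtain ⟨u, rfl⟩ := Nat.exists_eq_add_of_le ht1
      have hpu : p * (1 + u) = p + p * u := by ring
      have a1 : k - c = p * u + (p + k % p - c % p) := by omega
      have a2 : k' - c = p * u + (p + k' % p - c % p) := by omega
      rw [a1, a2, Nat.mul_add_div hp, Nat.mul_add_div hp, Nat.div_eq_of_lt (by omega),
        Nat.div_eq_of_lt (by omega)]
  · have h' : ¬ c ≤ k' := fun h0 => h (hle.2 h0)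
    rw [Nat.sub_eq_zero_of_le (by omega), Nat.sub_eq_zero_of_le (by omega)]

variable {p : ℕ}

/-- the part of a term which depends only on the quotient k/p -/
def Zk4 (n p k : ℕ) : ℚ :=
  if k ∈ K2 n then W n p k * (6 * H 4 ((k - 13 * n) / p) + 2 * (Lam n p k * H 3 ((k - 13 * n) / p)))
  else W n p k * (2 * H 3 ((k - 13 * n) / p))

theorem norm_Zk4 (n k : ℕ) [hF : Fact p.Prime] (hn : 1 ≤ n) (hp2 : 40 * n + 2 < p ^ 2)
    (hk : k ∈ K1 n) : padicNorm p (Zk4 n p k) ≤ 1 := by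
  have hp : p.Prime := hF.out
  have hm : k - 13 * n < p ^ 2 := lt_of_le_of_lt (Nat.sub_le _ _) (K1_lt hp2 hk)
  have h4 := (H_struct 4 (k - 13 * n) p hp hm).2
  have h3 := (H_struct 3 (k - 13 * n) p hp hm).2
  have hW := (norm_W n p k hn hp hp2 hk).le
  have hL := norm_Lam n p k hn hp hp2 hk
  have c6 : padicNorm p (6 : ℚ) ≤ 1 := by exact_mod_cast nint (p := p) 6
  have c2 : padicNorm p (2 : ℚ) ≤ 1 := by exact_mod_cast nint (p := p) 2
  unfold Zk4
  split_ifs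
  · exact nmul1 hW (nadd (nmul1 c6 h4) (nmul1 c2 (nmul1 hL h3)))
  · exact nmul1 hW (nmul1 c2 h3)

/-- one term -/
def tk4 (n j k : ℕ) : ℚ := 6 * A n j k * H 4 (k - 13 * n) + 2 * B n j k * H 3 (k - 13 * n)

theorem term_main4 (n j k : ℕ) [hF : Fact p.Prime] (hn : 1 ≤ n) (hp2 : 40 * n + 2 < p ^ 2)
    (hk : k ∈ K1 n) :
    padicNorm p (tk4 n j k -
      kap n * (p : ℚ) ^ (phi n p (k % p) - 2) * ((-(k : ℚ)) ^ j * U n p k * Zk4 n p k)) ≤
      (p : ℚ) ^ (1 - (e0 n p + phi n p (k % p))) := by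
  have hp : p.Prime := hF.out
  have hp0 : (p : ℚ) ≠ 0 := by exact_mod_cast hp.ne_zero
  have hm : k - 13 * n < p ^ 2 := lt_of_le_of_lt (Nat.sub_le _ _) (K1_lt hp2 hk)
  obtain ⟨h4, h4'⟩ := H_struct 4 (k - 13 * n) p hp hm
  obtain ⟨h3, h3'⟩ := H_struct 3 (k - 13 * n) p hp hm
  have hW := (norm_W n p k hn hp hp2 hk)
  have hU := (norm_U n p k hn hp hp2 hk)
  have hL := norm_Lam n p k hn hp hp2 hk
  have hkap := norm_kap n p hn hp hp2
  have c6 : padicNorm p (6 : ℚ) ≤ 1 := by exact_mod_cast nint (p := p) 6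
  have c2 : padicNorm p (2 : ℚ) ≤ 1 := by exact_mod_cast nint (p := p) 2
  set φ := phi n p (k % p) with hφ
  set m := k - 13 * n with hmdef
  obtain ⟨e4, he4⟩ : ∃ e4, e4 = H 4 m - H 4 (m / p) / (p : ℚ) ^ 4 := ⟨_, rfl⟩
  obtain ⟨e3, he3⟩ : ∃ e3, e3 = H 3 m - H 3 (m / p) / (p : ℚ) ^ 3 := ⟨_, rfl⟩
  rw [← he4] at h4
  rw [← he3] at h3
  have hH4 : H 4 m = H 4 (m / p) / (p : ℚ) ^ 4 + e4 := by rw [he4]; ring
  have hH3 : H 3 m = H 3 (m / p) / (p : ℚ) ^ 3 + e3 := by rw [he3]; ring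
  have hp3n : padicNorm p ((p : ℚ) ^ 3)⁻¹ ≤ (p : ℚ) ^ (3 : ℤ) := by
    have : ((p : ℚ) ^ 3)⁻¹ = (p : ℚ) ^ (-3 : ℤ) := by rw [zpow_neg]; norm_cast
    rw [this, npz, neg_neg]
  have hp1n : padicNorm p ((p : ℚ))⁻¹ ≤ (p : ℚ) ^ (1 : ℤ) := by
    have : ((p : ℚ))⁻¹ = (p : ℚ) ^ (-1 : ℤ) := by rw [zpow_neg, zpow_one]
    rw [this, npz, neg_neg]
  by_cases hk2 : k ∈ K2 n
  · have hA0 := A0_struct n p k hn hp hp2 hk2
    rw [← hφ] at hA0
    have hnA : padicNorm p (A0 n k) = (p : ℚ) ^ (-(e0 n p + φ) - 2) := by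
      rw [hA0, padicNorm.mul, padicNorm.mul, padicNorm.mul, hW, hU, hkap, npz, mul_one, mul_one,
        ← zpow_add₀ hp0]
      congr 1
      ring
    obtain ⟨l, hl⟩ : ∃ l, l = L0 n k - Lam n p k / p := ⟨_, rfl⟩
    have hl1 := L0_struct n p k hn hp hp2 hk2
    rw [← hl] at hl1
    have hL0 : L0 n k = Lam n p k / p + l := by rw [hl]; ring
    have hB : B n j k = (-(k : ℚ)) ^ j * (A0 n k * L0 n k) + (j : ℚ) * (-(k : ℚ)) ^ (j - 1) * A0 n k := by
      unfold B B0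
      rw [if_pos hk2]
    have hAj : A n j k = (-(k : ℚ)) ^ j * A0 n k := rfl
    have hZ : Zk4 n p k = W n p k * (6 * H 4 (m / p) + 2 * (Lam n p k * H 3 (m / p))) := by
      unfold Zk4
      rw [if_pos hk2]
    have hz : (p : ℚ) ^ (φ - 2) = (p : ℚ) ^ (φ + 2) * ((p : ℚ) ^ 4)⁻¹ := by
      have : ((p : ℚ) ^ 4)⁻¹ = (p : ℚ) ^ (-4 : ℤ) := by rw [zpow_neg]; norm_cast
      rw [this, ← zpow_add₀ hp0]
      congr 1
      ring
    have key : tk4 n j k - kap n * (p : ℚ) ^ (φ - 2) * ((-(k : ℚ)) ^ j * U n p k * Zk4 n p k) =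
        A0 n k * ((6 * ((-(k : ℚ)) ^ j * e4) + 2 * ((-(k : ℚ)) ^ j * (Lam n p k * ((p : ℚ))⁻¹ * e3))) +
          2 * (((-(k : ℚ)) ^ j * l + (j : ℚ) * (-(k : ℚ)) ^ (j - 1)) *
            (H 3 (m / p) * ((p : ℚ) ^ 3)⁻¹ + e3))) := by
      have hmain : kap n * (p : ℚ) ^ (φ - 2) * ((-(k : ℚ)) ^ j * U n p k * Zk4 n p k) =
          A0 n k * (-(k : ℚ)) ^ j * ((p : ℚ) ^ 4)⁻¹ * (6 * H 4 (m / p) + 2 * (Lam n p k * H 3 (m / p))) := by
        rw [hZ, hz, hA0]
        ring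
      rw [hmain]
      unfold tk4
      rw [← hmdef, hB, hAj, hL0, hH4, hH3]
      field_simp
      ring
    rw [key]
    have hE : padicNorm p ((6 * ((-(k : ℚ)) ^ j * e4) + 2 * ((-(k : ℚ)) ^ j * (Lam n p k * ((p : ℚ))⁻¹ * e3))) +
          2 * (((-(k : ℚ)) ^ j * l + (j : ℚ) * (-(k : ℚ)) ^ (j - 1)) *
            (H 3 (m / p) * ((p : ℚ) ^ 3)⁻¹ + e3))) ≤ (p : ℚ) ^ (3 : ℤ) := by
      have h1p : (1 : ℚ) ≤ (p : ℚ) ^ (3 : ℤ) := by
        have := pz_le (p := p) (a := 0) (b := 3) (by norm_num)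
        simpa using this
      have hpp : (p : ℚ) ^ (1 : ℤ) ≤ (p : ℚ) ^ (3 : ℤ) := pz_le (by norm_num)
      refine nadd (nadd ?_ ?_) (nmul1 c2 ?_)
      · exact le_trans (nmul1 c6 (nmul1 (nkj k j) h4)) h1p
      · refine nmul1 c2 (nmul1 (nkj k j) (nmul2 ?_ h3))
        exact (nmul1 hL hp1n).trans hpp
      · refine nmul1 (nadd (nmul1 (nkj k j) hl1) (nmul1 ?_ (nkj k _)))
          (nadd (nmul1 h3' hp3n) (h3.trans h1p))
        exact_mod_cast nint (p := p) (j : ℤ)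
    refine (nmul hnA.le hE).trans (le_of_eq ?_)
    rw [← zpow_add₀ hp0]
    congr 1
    ring
  · have hB0 := B0_struct n p k hn hp hp2 hk hk2
    rw [← hφ] at hB0
    have hA0 : A0 n k = 0 := by unfold A0; rw [if_neg hk2]
    have hnB : padicNorm p (B0 n k) = (p : ℚ) ^ (-(e0 n p + φ) - 1) := by
      rw [hB0, padicNorm.mul, padicNorm.mul, padicNorm.mul, hW, hU, hkap, npz, mul_one, mul_one,
        ← zpow_add₀ hp0]
      congr 1
      ring
    have hB : B n j k = (-(k : ℚ)) ^ j * B0 n k := by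
      unfold B
      rw [hA0]
      ring
    have hAj : A n j k = 0 := by unfold A; rw [hA0, mul_zero]
    have hZ : Zk4 n p k = W n p k * (2 * H 3 (m / p)) := by
      unfold Zk4
      rw [if_neg hk2]
    have hz : (p : ℚ) ^ (φ - 2) = (p : ℚ) ^ (φ + 1) * ((p : ℚ) ^ 3)⁻¹ := by
      have : ((p : ℚ) ^ 3)⁻¹ = (p : ℚ) ^ (-3 : ℤ) := by rw [zpow_neg]; norm_cast
      rw [this, ← zpow_add₀ hp0]
      congr 1
      ring
    have key : tk4 n j k - kap n * (p : ℚ) ^ (φ - 2) * ((-(k : ℚ)) ^ j * U n p k * Zk4 n p k) =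
        B0 n k * (2 * ((-(k : ℚ)) ^ j * e3)) := by
      have hmain : kap n * (p : ℚ) ^ (φ - 2) * ((-(k : ℚ)) ^ j * U n p k * Zk4 n p k) =
          B0 n k * (-(k : ℚ)) ^ j * ((p : ℚ) ^ 3)⁻¹ * (2 * H 3 (m / p)) := by
        rw [hZ, hz, hB0]
        ring
      rw [hmain]
      unfold tk4
      rw [← hmdef, hB, hAj, hH3]
      ring
    rw [key]
    refine (nmul2 hnB.le (nmul1 c2 (nmul1 (nkj k j) h3))).trans (pz_le ?_)
    linarith

theorem Zk4_gap {n s1 s2 : ℕ} {pi : Equiv.Perm (Fin 5)} (g : Gap n p s1 s2 pi) {k : ℕ}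
    (h1 : s1 ≤ k % p) (h2 : k % p < s2) :
    (k ∈ K1 n ↔ k / p * p + s1 ∈ K1 n) ∧ Zk4 n p k = Zk4 n p (k / p * p + s1) := by
  have hp := g.hp.pos
  have hs1 : s1 < p := lt_of_lt_of_le g.h12 g.h2p
  have e1 : (k / p * p + s1) % p = s1 := by
    rw [add_comm, Nat.add_mul_mod_self_right, Nat.mod_eq_of_lt hs1]
  have e2 : (k / p * p + s1) / p = k / p := by
    rw [add_comm, Nat.add_mul_div_right _ _ hp, Nat.div_eq_of_lt hs1, zero_add]
  obtain ⟨c1, c2, c3, c4, _⟩ := gap_const g k (k / p * p + s1) h1 h2 (by rw [e1])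
    (by rw [e1]; exact g.h12) e2.symm
  have a0 : (13 * n) % p ≤ s1 ∨ s2 ≤ (13 * n) % p := g.hal 0
  have c5 : (k - 13 * n) / p = (k / p * p + s1 - 13 * n) / p :=
    cg_div hp h1 h2 (by rw [e1]) (by rw [e1]; exact g.h12) e2.symm a0
  refine ⟨c1, ?_⟩
  unfold Zk4
  rw [c3, c4, c5]
  simp only [c2]

theorem sum_gap4 {n s1 s2 : ℕ} {pi : Equiv.Perm (Fin 5)} (g : Gap n p s1 s2 pi) (j : ℕ) (hj : j ≤ 2) :
    padicNorm p (∑ k ∈ (K1 n).filter (fun k => s1 ≤ k % p ∧ k % p < s2), (-(k : ℚ)) ^ j * U n p k * Zk4 n p k) ≤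
      (p : ℚ)⁻¹ := by
  have hF : Fact p.Prime := ⟨g.hp⟩
  have hp := g.hp.pos
  have hpinv : (0 : ℚ) ≤ (p : ℚ)⁻¹ := by positivity
  have hs1p : s1 < p := lt_of_lt_of_le g.h12 g.h2p
  obtain ⟨c, hc1, hc⟩ := U_congr g
  set F := (K1 n).filter (fun k => s1 ≤ k % p ∧ k % p < s2) with hFdef
  have hmem : ∀ k ∈ F, k ∈ K1 n ∧ s1 ≤ k % p ∧ k % p < s2 := by
    intro k hk
    rw [hFdef, mem_filter] at hk
    exact hk
  -- replace the terms
  have hrep : padicNorm p (∑ k ∈ F, ((-(k : ℚ)) ^ j * U n p k * Zk4 n p k -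
      (-((k % p : ℕ) : ℚ)) ^ j * (c * (Pv n p pi (k % p : ℕ) : ℚ)) * Zk4 n p (k / p * p + s1))) ≤ (p : ℚ)⁻¹ := by
    refine padicNorm.sum_le' (fun k hk => ?_) hpinv
    obtain ⟨h1, h2, h3⟩ := hmem k hk
    rw [← (Zk4_gap g h2 h3).2]
    have e : (-(k : ℚ)) ^ j * U n p k * Zk4 n p k - (-((k % p : ℕ) : ℚ)) ^ j * (c * (Pv n p pi (k % p : ℕ) : ℚ)) * Zk4 n p k =
        (((-(k : ℚ)) ^ j - (-((k % p : ℕ) : ℚ)) ^ j) * U n p k +
          (-((k % p : ℕ) : ℚ)) ^ j * (U n p k - c * (Pv n p pi (k % p : ℕ) : ℚ))) * Zk4 n p k := by ring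
    rw [e]
    refine nmul2 (nadd (nmul2 ?_ (norm_U n p k g.hn g.hp g.hp2 h1).le) (nmul1 (nkj _ _) ?_)) (norm_Zk4 n k g.hn g.hp2 h1)
    · have h4 : (p : ℤ) ∣ (-(k : ℤ)) ^ j - (-((k % p : ℕ) : ℤ)) ^ j := by
        refine dvd_trans ?_ (sub_dvd_pow_sub_pow _ _ j)
        have : (-(k : ℤ)) - (-((k % p : ℕ) : ℤ)) = -((k : ℤ) - ((k % p : ℕ) : ℤ)) := by ring
        rw [this, dvd_neg]
        push_cast
        exact Int.dvd_self_sub_emod
      have h5 : (-(k : ℚ)) ^ j - (-((k % p : ℕ) : ℚ)) ^ j = (((-(k : ℤ)) ^ j - (-((k % p : ℕ) : ℤ)) ^ j : ℤ) : ℚ) := by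
        rw [Int.cast_sub, Int.cast_pow, Int.cast_pow, Int.cast_neg, Int.cast_neg, Int.cast_natCast, Int.cast_natCast]
      rw [h5]
      have h6 := (padicNorm.dvd_iff_norm_le (p := p) (n := 1) (z := (-(k : ℤ)) ^ j - (-((k % p : ℕ) : ℤ)) ^ j)).mp
        (by rw [pow_one]; exact h4)
      simpa using h6
    · have := hc k h1 h2 h3
      rwa [one_div] at this
  have hsum : ∑ k ∈ F, (-((k % p : ℕ) : ℚ)) ^ j * (c * (Pv n p pi (k % p : ℕ) : ℚ)) * Zk4 n p (k / p * p + s1) =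
      (∑ l ∈ (range (40 * n + 2)).filter (fun l => l * p + s1 ∈ K1 n), c * Zk4 n p (l * p + s1)) *
        ((∑ s ∈ Ico s1 s2, (-(s : ℤ)) ^ j * Pv n p pi s : ℤ) : ℚ) := by
    rw [Int.cast_sum, Finset.sum_mul_sum, ← Finset.sum_product']
    refine Finset.sum_nbij' (fun k => (k / p, k % p)) (fun x => x.1 * p + x.2) ?_ ?_ ?_ ?_ ?_
    · intro k hk
      obtain ⟨h1, h2, h3⟩ := hmem k hk
      rw [mem_product, mem_filter, mem_range, mem_Ico]
      refine ⟨⟨?_, (Zk4_gap g h2 h3).1.mp h1⟩, h2, h3⟩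
      have h4 : k / p ≤ k := Nat.div_le_self _ _
      unfold K1 at h1
      rw [mem_Ico] at h1
      dsimp only
      omega
    · rintro ⟨l, s⟩ hx
      rw [mem_product, mem_filter, mem_range, mem_Ico] at hx
      obtain ⟨⟨h1, h2⟩, h3, h4⟩ := hx
      dsimp only at h1 h2 h3 h4 ⊢
      have hsp : s < p := lt_of_lt_of_le h4 g.h2p
      have e1 : (l * p + s) % p = s := by
        rw [add_comm, Nat.add_mul_mod_self_right, Nat.mod_eq_of_lt hsp]
      have e2 : (l * p + s) / p = l := by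
        rw [add_comm, Nat.add_mul_div_right _ _ hp, Nat.div_eq_of_lt hsp, zero_add]
      rw [hFdef, mem_filter, e1]
      refine ⟨?_, h3, h4⟩
      have := (Zk4_gap g (k := l * p + s) (by rw [e1]; exact h3) (by rw [e1]; exact h4)).1
      rw [e2] at this
      exact this.mpr h2
    · intro k _
      exact Nat.div_add_mod' k p
    · rintro ⟨l, s⟩ hx
      rw [mem_product, mem_filter, mem_range, mem_Ico] at hx
      obtain ⟨-, h3, h4⟩ := hx
      dsimp only at h3 h4 ⊢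
      have hsp : s < p := lt_of_lt_of_le h4 g.h2p
      have e1 : (l * p + s) % p = s := by
        rw [add_comm, Nat.add_mul_mod_self_right, Nat.mod_eq_of_lt hsp]
      have e2 : (l * p + s) / p = l := by
        rw [add_comm, Nat.add_mul_div_right _ _ hp, Nat.div_eq_of_lt hsp, zero_add]
      rw [e1, e2]
    · intro k _
      dsimp only
      rw [Int.cast_mul, Int.cast_pow, Int.cast_neg, Int.cast_natCast]
      ring
  have hS1 : padicNorm p (∑ l ∈ (range (40 * n + 2)).filter (fun l => l * p + s1 ∈ K1 n), c * Zk4 n p (l * p + s1)) ≤ 1 := by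
    refine padicNorm.sum_le' (fun l hl => ?_) zero_le_one
    rw [mem_filter] at hl
    exact nmul1 hc1 (norm_Zk4 n _ g.hn g.hp2 hl.2)
  have hS2 : padicNorm p ((∑ s ∈ Ico s1 s2, (-(s : ℤ)) ^ j * Pv n p pi s : ℤ) : ℚ) ≤ (p : ℚ)⁻¹ := by
    have h6 := (padicNorm.dvd_iff_norm_le (p := p) (n := 1) (z := ∑ s ∈ Ico s1 s2, (-(s : ℤ)) ^ j * Pv n p pi s)).mp
      (by rw [pow_one]; exact sum_Pv g j hj)
    simpa using h6
  have hfin := nadd hrep (nmul1 hS1 hS2)
  rw [← hsum, ← Finset.sum_add_distrib] at hfin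
  simpa using hfin

/-- **The cancellation** for the rational parts of the forms in zeta(4). -/
theorem cancel4 {n p s1 s2 : ℕ} {pi : Equiv.Perm (Fin 5)} (g : Gap n p s1 s2 pi) :
    PB4 n p (2 - e0 n p) := by
  have hF : Fact p.Prime := ⟨g.hp⟩
  have hp := g.hp.pos
  have hp0 : (p : ℚ) ≠ 0 := by exact_mod_cast g.hp.ne_zero
  have hpos : ∀ z : ℤ, (0 : ℚ) ≤ (p : ℚ) ^ z := fun z => zpow_nonneg (by positivity) z
  have hphi : ∀ k, -1 ≤ phi n p (k % p) := fun k => g.hphi _ (Nat.mod_lt _ hp)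
  intro j hj
  have hb : b4 n j = ∑ k ∈ K1 n, tk4 n j k := rfl
  rw [hb]
  have h1 : padicNorm p (∑ k ∈ K1 n, (tk4 n j k - kap n * (p : ℚ) ^ (phi n p (k % p) - 2) *
      ((-(k : ℚ)) ^ j * U n p k * Zk4 n p k))) ≤ (p : ℚ) ^ (2 - e0 n p) := by
    refine padicNorm.sum_le' (fun k hk => ?_) (hpos _)
    refine (term_main4 n j k g.hn g.hp2 hk).trans (pz_le ?_)
    have := hphi k
    linarith
  have h2 : padicNorm p (∑ k ∈ K1 n, kap n * (p : ℚ) ^ (phi n p (k % p) - 2) *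
      ((-(k : ℚ)) ^ j * U n p k * Zk4 n p k)) ≤ (p : ℚ) ^ (2 - e0 n p) := by
    rw [← Finset.sum_filter_add_sum_filter_not (K1 n) (fun k => s1 ≤ k % p ∧ k % p < s2)]
    refine nadd ?_ ?_
    · have e : ∑ k ∈ (K1 n).filter (fun k => s1 ≤ k % p ∧ k % p < s2),
          kap n * (p : ℚ) ^ (phi n p (k % p) - 2) * ((-(k : ℚ)) ^ j * U n p k * Zk4 n p k) =
          kap n * (p : ℚ) ^ (-3 : ℤ) *
          ∑ k ∈ (K1 n).filter (fun k => s1 ≤ k % p ∧ k % p < s2),
            ((-(k : ℚ)) ^ j * U n p k * Zk4 n p k) := by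
        rw [Finset.mul_sum]
        refine Finset.sum_congr rfl fun k hk => ?_
        rw [mem_filter] at hk
        rw [phi_gap g hk.2.1 hk.2.2]
        norm_num
      rw [e]
      have h3 : padicNorm p (kap n * (p : ℚ) ^ (-3 : ℤ)) ≤ (p : ℚ) ^ (3 - e0 n p) := by
        rw [padicNorm.mul, norm_kap n p g.hn g.hp g.hp2, npz, ← zpow_add₀ hp0]
        refine pz_le ?_
        linarith
      refine (nmul h3 (sum_gap4 g j hj)).trans (le_of_eq ?_)
      rw [← zpow_neg_one, ← zpow_add₀ hp0]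
      congr 1
      ring
    · refine padicNorm.sum_le' (fun k hk => ?_) (hpos _)
      rw [mem_filter] at hk
      have hph : 0 ≤ phi n p (k % p) := by
        have h3 := hphi k
        by_contra hlt
        push Not at hlt
        have h4 : phi n p (k % p) = -1 := by omega
        exact hk.2 (g.hout _ (Nat.mod_lt _ hp) h4)
      have h5 : padicNorm p (kap n * (p : ℚ) ^ (phi n p (k % p) - 2)) ≤ (p : ℚ) ^ (2 - e0 n p) := by
        rw [padicNorm.mul, norm_kap n p g.hn g.hp g.hp2, npz, ← zpow_add₀ hp0]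
        refine pz_le ?_
        linarith
      refine nmul2 h5 ?_
      refine nmul1 (nmul1 (nkj k j) (norm_U n p k g.hn g.hp g.hp2 hk.1).le)
        (norm_Zk4 n k g.hn g.hp2 hk.1)
  have h3 := nadd h1 h2
  rw [← Finset.sum_add_distrib] at h3
  simpa using h3

end Pool.Agent.Z34
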