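import Pool.Agent.Z3.Sum
import Pool.Agent.Z3.Shift

/-!
Linear forms in 1 and zeta(4) from the derivatives of the rational functions of `Pool.Agent.Z3`.
The form in zeta(4) has the same leading coefficient `a n j` as the form in zeta(3).
-/

open Finset

namespace Pool.Agent.Z34

open Pool.Agent.Z3

/-- zeta(4) -/
noncomputable def zeta4 : ℝ := ∑' n : ℕ, 1 / ((n : ℝ) + 1) ^ 4

/-- the rational part of the form in zeta(4) -/
def b4 (n j : ℕ) : ℚ :=
  ∑ k ∈ K1 n, (6 * A n j k * H 4 (k - 13 * n) + 2 * B n j k * H 3 (k - 13 * n))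

/-- the form in zeta(3) -/
noncomputable def F3 (N j : ℕ) : ℂ := Iint (-(25 * (N : ℤ))) (G (4 * N) j)

/-- the form in zeta(4) -/
noncomputable def F4 (N j : ℕ) : ℂ := -Iint (-(25 * (N : ℤ))) (deriv (G (4 * N) j))

/-- all b4 n j, j = 0,1,2, have p-adic absolute value at most p^w -/
def PB4 (n p : ℕ) (w : ℤ) : Prop := ∀ j : ℕ, j ≤ 2 → padicNorm p (b4 n j) ≤ (p : ℚ) ^ w

/-- the derivative of the kernel -/
noncomputable def dKer (y : ℝ) : ℝ :=
  -(Real.pi ^ 2 * Real.sinh (Real.pi * y)) / Real.cosh (Real.pi * y) ^ 3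

open Classical in
/-- the exponent of p in the common denominator -/
noncomputable def ex4 (n p : ℕ) : ℕ :=
  if p ^ 2 ≤ 40 * n + 2 ∨ ¬ Good n p then 4 * Nat.log p (40 * n + 2)
  else if 27 * n + 1 < p then 0
  else if 25 * n + 1 < p then 1
  else if 23 * n + 1 < p then 2
  else if 21 * n + 1 < p then 3
  else wtab (n % p) p + 1

/-- the common denominator -/
noncomputable def D4 (n : ℕ) : ℕ := ∏ p ∈ (range (40 * n + 3)).filter Nat.Prime, p ^ ex4 n p

end Pool.Agent.Z34
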