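import Pool.Agent.Z23.Assemble
import Pool.Agent.Z34.Defs

/-!
Conclusions for the triple 1, zeta(3), pi ^ 4.
-/

open Filter Topology

namespace Pool.Agent.Z34

open Pool.Agent.Z3 (zeta3)

/-- the value of zeta(4) -/
theorem zeta4_eq_pi : zeta4 = Real.pi ^ 4 / 90 := by
  have h := hasSum_zeta_four
  have h1 := h.summable.tsum_eq_zero_add
  rw [h.tsum_eq] at h1
  rw [h1]
  unfold zeta4
  simp

/-- from the pair (zeta(3), 3 zeta(4)) to the pair (pi ^ 4, zeta(3)) in the measure -/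
theorem measure_pi4 (κ : ℝ) (hκ : 0 ≤ κ)
    (h : ∃ c : ℝ, 0 < c ∧ ∀ x y z : ℤ, ¬ (x = 0 ∧ y = 0 ∧ z = 0) →
      c * (|(x : ℝ)| + |(y : ℝ)| + 1) ^ (-κ) ≤
        |(x : ℝ) * (3 * zeta4) + (y : ℝ) * zeta3 + (z : ℝ)|) :
    ∃ c : ℝ, 0 < c ∧ ∀ x y z : ℤ, ¬ (x = 0 ∧ y = 0 ∧ z = 0) →
      c * (max |(y : ℝ)| |(z : ℝ)| + 1) ^ (-κ) ≤
        |(x : ℝ) + (y : ℝ) * Real.pi ^ 4 + (z : ℝ) * ∑' n : ℕ, 1 / ((n : ℝ) + 1) ^ 3| := by
  obtain ⟨c, hc, H⟩ := h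
  refine ⟨c * (60 : ℝ) ^ (-κ), by positivity, fun x y z hne => ?_⟩
  have h1 := H (30 * y) z x (by
    intro ⟨h1, h2, h3⟩
    exact hne ⟨h3, by omega, h2⟩)
  have e1 : ((30 * y : ℤ) : ℝ) * (3 * zeta4) + (z : ℝ) * zeta3 + (x : ℝ) =
      (x : ℝ) + (y : ℝ) * Real.pi ^ 4 + (z : ℝ) * ∑' n : ℕ, 1 / ((n : ℝ) + 1) ^ 3 := by
    rw [zeta4_eq_pi]
    unfold zeta3
    push_cast
    ring
  rw [e1] at h1
  refine le_trans ?_ h1
  rw [mul_assoc]
  refine mul_le_mul_of_nonneg_left ?_ hc.le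
  have hm0 : 0 ≤ max |(y : ℝ)| |(z : ℝ)| := le_max_of_le_left (abs_nonneg _)
  rw [← Real.mul_rpow (by norm_num) (by linarith)]
  refine Real.rpow_le_rpow_of_nonpos (by positivity) ?_ (by linarith)
  push_cast
  rw [abs_mul, abs_of_pos (by norm_num : (0 : ℝ) < 30)]
  have hy := le_max_left |(y : ℝ)| |(z : ℝ)|
  have hz := le_max_right |(y : ℝ)| |(z : ℝ)|
  linarith

/-- no relation with zeta(4) -/
theorem linInd_pi4 (h : ∀ x y z : ℤ, (x : ℝ) * (3 * zeta4) + (y : ℝ) * zeta3 + (z : ℝ) = 0 →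
    x = 0 ∧ y = 0 ∧ z = 0) :
    LinearIndependent ℚ ![(1 : ℝ), ∑' n : ℕ, 1 / ((n : ℝ) + 1) ^ 3, Real.pi ^ 4] := by
  refine Z23.linInd_of_int _ _ fun x y z hxyz => ?_
  obtain ⟨hx, hy, hz⟩ := h (30 * y) x z (by
    rw [zeta4_eq_pi]
    unfold zeta3
    push_cast
    linear_combination hxyz)
  exact ⟨hy, by omega, hz⟩

/-- zeta(3) is not a rational combination of 1 and pi ^ 4 -/
theorem zeta3_ne4 (h : ∀ x y z : ℤ, (x : ℝ) * (3 * zeta4) + (y : ℝ) * zeta3 + (z : ℝ) = 0 →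
    x = 0 ∧ y = 0 ∧ z = 0) (r s : ℚ) :
    ∑' n : ℕ, 1 / ((n : ℝ) + 1) ^ 3 ≠ r + s * Real.pi ^ 4 := by
  intro hcon
  have hl := linInd_pi4 h
  rw [Fintype.linearIndependent_iff] at hl
  have := hl ![r, -1, s] (by
    simp only [Fin.sum_univ_three, Rat.smul_def, Matrix.cons_val_zero, Matrix.cons_val_one,
      Matrix.cons_val]
    rw [hcon]
    push_cast
    ring) 1
  simp at this

/-- zeta(3) / pi ^ 4 is irrational -/
theorem irrational_div4 (h : ∀ x y z : ℤ, (x : ℝ) * (3 * zeta4) + (y : ℝ) * zeta3 + (z : ℝ) = 0 →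
    x = 0 ∧ y = 0 ∧ z = 0) :
    Irrational ((∑' n : ℕ, 1 / ((n : ℝ) + 1) ^ 3) / Real.pi ^ 4) := by
  rintro ⟨q, hq⟩
  have hpi : Real.pi ^ 4 ≠ 0 := by positivity
  rw [eq_div_iff hpi] at hq
  exact zeta3_ne4 h 0 q (by rw [← hq]; push_cast; ring)

/-- the values of the Riemann zeta function -/
theorem linInd_riemannZeta4 (h : ∀ x y z : ℤ,
    (x : ℝ) * (3 * zeta4) + (y : ℝ) * zeta3 + (z : ℝ) = 0 → x = 0 ∧ y = 0 ∧ z = 0) :
    LinearIndependent ℚ ![(1 : ℂ), riemannZeta 3, riemannZeta 4] := by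
  have hl := Z23.linInd_of_int zeta3 zeta4 (fun x y z hxyz => by
    obtain ⟨h1, h2, h3⟩ := h y (3 * x) (3 * z) (by
      push_cast
      linear_combination 3 * hxyz)
    exact ⟨by omega, h1, by omega⟩)
  have hval : ∀ k : ℕ, 1 < k → riemannZeta (k : ℂ) = ((∑' n : ℕ, 1 / ((n : ℝ) + 1) ^ k : ℝ) : ℂ) := by
    intro k hk
    have h := zeta_nat_eq_tsum_of_gt_one (k := k) hk
    rw [h]
    push_cast
    have hs : Summable (fun n : ℕ => 1 / (n : ℂ) ^ k) := by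
      have h1 : Summable (fun n : ℕ => 1 / (n : ℝ) ^ k) :=
        Real.summable_one_div_nat_pow.mpr hk
      have h2 := Complex.ofRealCLM.summable h1
      refine h2.congr fun n => ?_
      simp
    rw [hs.tsum_eq_zero_add]
    have hk0 : k ≠ 0 := by omega
    simp [hk0]
  have e3 : riemannZeta 3 = ((zeta3 : ℝ) : ℂ) := by
    have := hval 3 (by norm_num)
    unfold zeta3
    exact_mod_cast this
  have e4 : riemannZeta 4 = ((zeta4 : ℝ) : ℂ) := by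
    have := hval 4 (by norm_num)
    unfold zeta4
    exact_mod_cast this
  rw [Fintype.linearIndependent_iff] at hl ⊢
  intro g hg
  refine hl g ?_
  simp only [Fin.sum_univ_three, Rat.smul_def, Matrix.cons_val_zero, Matrix.cons_val_one,
    Matrix.cons_val] at hg ⊢
  rw [e3, e4] at hg
  exact_mod_cast hg

end Pool.Agent.Z34
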