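import Pool.Agent.Z34.Defs

/-!
# A crude bound for the denominators of the forms in zeta(4)
-/

open Finset

namespace Pool.Agent.Z34

open Pool.Agent.Z3

section

variable {p : ℕ} [hp : Fact p.Prime]

private theorem cr_one_le : (1 : ℚ) ≤ (p : ℚ) := by exact_mod_cast hp.out.one_lt.le

private theorem cr_pos : (0 : ℚ) < (p : ℚ) := by exact_mod_cast hp.out.pos

private theorem cr_pow_one (L : ℕ) : (1 : ℚ) ≤ (p : ℚ) ^ L := one_le_pow₀ cr_one_le

/-- `1 / m` for a nonzero integer of absolute value at most `M` -/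
private theorem cr_inv {m : ℤ} (hm : m ≠ 0) {M : ℕ} (hM : m.natAbs ≤ M) :
    padicNorm p (1 / (m : ℚ)) ≤ (p : ℚ) ^ Nat.log p M := by
  have hm' : (m : ℚ) ≠ 0 := by exact_mod_cast hm
  rw [padicNorm.div, padicNorm.one, padicNorm.eq_zpow_of_nonzero hm', zpow_neg, one_div, inv_inv,
    padicValRat.of_int, padicValInt, zpow_natCast]
  refine pow_le_pow_right₀ cr_one_le ?_
  exact (padicValNat_le_nat_log _).trans (Nat.log_mono_right hM)

private theorem cr_pow (q : ℚ) (s : ℕ) : padicNorm p (q ^ s) = padicNorm p q ^ s := by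
  induction s with
  | zero => simp
  | succ s ih => rw [pow_succ, padicNorm.mul, ih, pow_succ]

private theorem cr_H (s m M : ℕ) (hm : m ≤ M) :
    padicNorm p (H s m) ≤ (p : ℚ) ^ (s * Nat.log p M) := by
  unfold H
  refine padicNorm.sum_le' (fun i hi => ?_) (by positivity)
  have h1 : (1 : ℚ) / ((i : ℚ) + 1) ^ s = (1 / (((i + 1 : ℕ) : ℤ) : ℚ)) ^ s := by
    push_cast
    rw [div_pow, one_pow]
  rw [h1, cr_pow, mul_comm s, pow_mul]
  refine pow_le_pow_left₀ (padicNorm.nonneg _) (cr_inv (by positivity) ?_) s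
  rw [Finset.mem_range] at hi
  rw [Int.natAbs_natCast]
  omega

private theorem cr_A0 (n k : ℕ) : padicNorm p (A0 n k) ≤ 1 := by
  unfold A0
  split_ifs
  · have h : (k.choose (17 * n) : ℚ) * ((k - 2 * n).choose (13 * n) : ℚ) *
        ((k - 4 * n).choose (9 * n) : ℚ) * ((21 * n + 1).choose (k - 19 * n) : ℚ) *
        ((18 * n + 1).choose (k - 20 * n) : ℚ) =
        ((k.choose (17 * n) * (k - 2 * n).choose (13 * n) * (k - 4 * n).choose (9 * n) *
          (21 * n + 1).choose (k - 19 * n) * (18 * n + 1).choose (k - 20 * n) : ℕ) : ℚ) := by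
      push_cast
      ring
    rw [h]
    exact padicNorm.of_nat _
  · rw [padicNorm.zero]
    exact zero_le_one

private theorem cr_add {x y c : ℚ} (hx : padicNorm p x ≤ c) (hy : padicNorm p y ≤ c) :
    padicNorm p (x + y) ≤ c :=
  padicNorm.nonarchimedean.trans (max_le hx hy)

private theorem cr_sub {x y c : ℚ} (hx : padicNorm p x ≤ c) (hy : padicNorm p y ≤ c) :
    padicNorm p (x - y) ≤ c :=
  padicNorm.sub.trans (max_le hx hy)

private theorem cr_term {i k M : ℕ} (hik : i ≠ k) (hi : i ≤ M) (hk : k ≤ M) :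
    padicNorm p (1 / ((i : ℚ) - k)) ≤ (p : ℚ) ^ Nat.log p M := by
  have h1 : (i : ℚ) - k = (((i : ℤ) - k : ℤ) : ℚ) := by push_cast; ring
  rw [h1]
  refine cr_inv (by omega) ?_
  omega

private theorem cr_L0 (n k : ℕ) (hk : k ∈ K2 n) :
    padicNorm p (L0 n k) ≤ (p : ℚ) ^ Nat.log p (40 * n + 2) := by
  rw [K2, Finset.mem_Ico] at hk
  have h0 : (0 : ℚ) ≤ (p : ℚ) ^ Nat.log p (40 * n + 2) := by positivity
  unfold L0
  refine cr_sub (cr_sub (cr_add (cr_add ?_ ?_) ?_) ?_) ?_
  · refine padicNorm.sum_le' (fun i hi => ?_) h0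
    rw [N1, Finset.mem_Ico] at hi
    exact cr_term (by omega) (by omega) (by omega)
  · refine padicNorm.sum_le' (fun i hi => ?_) h0
    rw [N2, Finset.mem_Ico] at hi
    exact cr_term (by omega) (by omega) (by omega)
  · refine padicNorm.sum_le' (fun i hi => ?_) h0
    rw [N3, Finset.mem_Ico] at hi
    exact cr_term (by omega) (by omega) (by omega)
  · refine padicNorm.sum_le' (fun i hi => ?_) h0
    rw [Finset.mem_erase, K1, Finset.mem_Ico] at hi
    exact cr_term hi.1 (by omega) (by omega)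
  · refine padicNorm.sum_le' (fun i hi => ?_) h0
    rw [Finset.mem_erase, K2, Finset.mem_Ico] at hi
    exact cr_term hi.1 (by omega) (by omega)

/-- `m! / (x (x + 1) ... (x + m))` -/
private theorem cr_frac (M m : ℕ) : ∀ x : ℤ, (∀ l : ℕ, l ≤ m → x + l ≠ 0 ∧ (x + l).natAbs ≤ M) →
    padicNorm p ((m.factorial : ℚ) / ∏ l ∈ range (m + 1), ((x : ℚ) + l)) ≤
      (p : ℚ) ^ Nat.log p M := by
  induction m with
  | zero =>
    intro x hx
    have h1 := hx 0 le_rfl
    simp only [Nat.cast_zero, add_zero] at h1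
    simpa using cr_inv (p := p) h1.1 h1.2
  | succ m ih =>
    intro x hx
    have h1 := ih x fun l hl => hx l (by omega)
    have h2 := ih (x + 1) fun l hl => by
      have := hx (l + 1) (by omega)
      push_cast at this
      rw [add_assoc, add_comm 1 (l : ℤ)]
      exact this
    have hne : ∀ l : ℕ, l ≤ m + 1 → (x : ℚ) + l ≠ 0 := by
      intro l hl
      have := (hx l hl).1
      exact_mod_cast this
    have h3 : ((m + 1).factorial : ℚ) / ∏ l ∈ range (m + 1 + 1), ((x : ℚ) + l) =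
        (m.factorial : ℚ) / ∏ l ∈ range (m + 1), ((x : ℚ) + l) -
        (m.factorial : ℚ) / ∏ l ∈ range (m + 1), (((x + 1 : ℤ) : ℚ) + l) := by
      have e1 : ∏ l ∈ range (m + 1), (((x + 1 : ℤ) : ℚ) + l) =
          ∏ l ∈ range (m + 1), ((x : ℚ) + ((l + 1 : ℕ) : ℚ)) := by
        refine Finset.prod_congr rfl fun l _ => ?_
        push_cast
        ring
      have e2 : ∏ l ∈ range (m + 1 + 1), ((x : ℚ) + l) =
          (∏ l ∈ range (m + 1), ((x : ℚ) + ((l + 1 : ℕ) : ℚ))) * x := by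
        rw [Finset.prod_range_succ']
        simp
      have e3 : ∏ l ∈ range (m + 1 + 1), ((x : ℚ) + l) =
          (∏ l ∈ range (m + 1), ((x : ℚ) + l)) * ((x : ℚ) + ((m + 1 : ℕ) : ℚ)) :=
        Finset.prod_range_succ _ _
      have hx0 : (x : ℚ) ≠ 0 := by simpa using hne 0 (by omega)
      have hxm : (x : ℚ) + ((m + 1 : ℕ) : ℚ) ≠ 0 := hne (m + 1) le_rfl
      have p1 : ∏ l ∈ range (m + 1), ((x : ℚ) + l) ≠ 0 :=
        Finset.prod_ne_zero_iff.2 fun l hl => hne l (by rw [Finset.mem_range] at hl; omega)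
      have p2 : ∏ l ∈ range (m + 1), ((x : ℚ) + ((l + 1 : ℕ) : ℚ)) ≠ 0 :=
        Finset.prod_ne_zero_iff.2 fun l hl => hne (l + 1) (by rw [Finset.mem_range] at hl; omega)
      have p3 : ∏ l ∈ range (m + 1 + 1), ((x : ℚ) + l) ≠ 0 := by
        rw [e2]
        exact mul_ne_zero p2 hx0
      rw [e1, div_sub_div _ _ p1 p2, div_eq_div_iff p3 (mul_ne_zero p1 p2), Nat.factorial_succ]
      have e4 : (∏ l ∈ range (m + 1), ((x : ℚ) + ((l + 1 : ℕ) : ℚ))) * x =
          (∏ l ∈ range (m + 1), ((x : ℚ) + l)) * ((x : ℚ) + ((m + 1 : ℕ) : ℚ)) := by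
        rw [← e2, e3]
      set P := ∏ l ∈ range (m + 1), ((x : ℚ) + l) with hP
      set P' := ∏ l ∈ range (m + 1), ((x : ℚ) + ((l + 1 : ℕ) : ℚ)) with hP'
      rw [e3]
      push_cast at e4 ⊢
      linear_combination (-((m.factorial : ℚ)) * P) * e4
    rw [h3]
    exact cr_sub h1 h2

/-- a block of zeros -/
private theorem cr_block (a b k : ℕ) (hab : a ≤ b) (hbk : b ≤ k) :
    ∏ i ∈ Ico a b, (-(k : ℚ) + (i : ℚ)) =
      (-1) ^ (b - a) * (((b - a).factorial : ℚ) * ((k - a).choose (b - a) : ℚ)) := by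
  induction b, hab using Nat.le_induction with
  | base => simp
  | succ b hab ih =>
    rw [Finset.prod_Ico_succ_top (by omega), ih (by omega)]
    have h1 : b + 1 - a = (b - a) + 1 := by omega
    rw [h1, Nat.factorial_succ]
    have h2 : (((k - a).choose (b - a + 1) : ℕ) : ℚ) * ((b - a + 1 : ℕ) : ℚ) =
        ((k - a).choose (b - a) : ℚ) * ((k : ℚ) - b) := by
      have h3 := Nat.choose_succ_right_eq (k - a) (b - a)
      have h4 : k - a - (b - a) = k - b := by omega
      rw [h4] at h3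
      have h5 : ((k - b : ℕ) : ℚ) = (k : ℚ) - b := by
        rw [Nat.cast_sub (by omega)]
      rw [← h5]
      exact_mod_cast h3
    push_cast at h2 ⊢
    rw [pow_succ]
    linear_combination (-1) ^ (b - a) * ((b - a).factorial : ℚ) * h2

/-- the poles, without `k` -/
private theorem cr_K1 (a b k : ℕ) (hak : a ≤ k) (hkb : k < b) :
    ∏ i ∈ (Ico a b).erase k, ((i : ℚ) - k) =
      (-1) ^ (k - a) * (((k - a).factorial : ℚ) * ((b - 1 - k).factorial : ℚ)) := by
  have h1 : (Ico a b).erase k = Ico a k ∪ Ico (k + 1) b := by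
    ext i
    simp only [Finset.mem_erase, Finset.mem_Ico, Finset.mem_union]
    omega
  have h2 : Disjoint (Ico a k) (Ico (k + 1) b) := by
    rw [Finset.disjoint_left]
    intro i hi hi'
    rw [Finset.mem_Ico] at hi hi'
    omega
  have h3 : ∏ i ∈ Ico a k, ((i : ℚ) - k) = (-1) ^ (k - a) * ((k - a).factorial : ℚ) := by
    have := cr_block a k k hak le_rfl
    rw [Nat.choose_self, Nat.cast_one, mul_one] at this
    rw [← this]
    exact Finset.prod_congr rfl fun i _ => by ring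
  have h4 : ∏ i ∈ Ico (k + 1) b, ((i : ℚ) - k) = ((b - 1 - k).factorial : ℚ) := by
    rw [Finset.prod_Ico_eq_prod_range]
    have h5 : b - (k + 1) = b - 1 - k := by omega
    rw [h5, ← Finset.prod_range_add_one_eq_factorial, Nat.cast_prod]
    refine Finset.prod_congr rfl fun i _ => ?_
    push_cast
    ring
  rw [h1, Finset.prod_union h2, h3, h4]
  ring

omit hp in
private theorem cr_neg_one_pow (m : ℕ) (q : ℚ) : padicNorm p ((-1) ^ m * q) = padicNorm p q := by
  rcases neg_one_pow_eq_or ℚ m with h | h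
  · rw [h, one_mul]
  · rw [h, neg_one_mul, padicNorm.neg]

private theorem cr_B0 (n k : ℕ) (hn : 1 ≤ n) (hk : k ∈ K1 n) :
    padicNorm p (B0 n k) ≤ (p : ℚ) ^ Nat.log p (40 * n + 2) := by
  unfold B0
  split_ifs with hk2
  · rw [padicNorm.mul]
    calc padicNorm p (A0 n k) * padicNorm p (L0 n k) ≤ 1 * (p : ℚ) ^ Nat.log p (40 * n + 2) := by
          refine mul_le_mul (cr_A0 n k) (cr_L0 n k hk2) (padicNorm.nonneg _) zero_le_one
      _ = _ := one_mul _
  · have hkk := hk
    rw [K1, Finset.mem_Ico] at hkk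
    rw [K2, Finset.mem_Ico] at hk2
    -- the product over `K2`
    set R : ℚ := ((18 * n + 1).factorial : ℚ) /
      ∏ l ∈ range (18 * n + 1 + 1), (((((20 * n : ℕ) : ℤ) - (k : ℤ) : ℤ) : ℚ) + l) with hR
    have hRle : padicNorm p R ≤ (p : ℚ) ^ Nat.log p (40 * n + 2) := by
      refine cr_frac (40 * n + 2) (18 * n + 1) _ fun l hl => ?_
      constructor
      · omega
      · omega
    have hK2 : ∏ i ∈ K2 n, ((i : ℚ) - k) =
        ∏ l ∈ range (18 * n + 1 + 1), (((((20 * n : ℕ) : ℤ) - (k : ℤ) : ℤ) : ℚ) + l) := by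
      rw [K2, Finset.prod_Ico_eq_prod_range]
      have h5 : 38 * n + 2 - 20 * n = 18 * n + 1 + 1 := by omega
      rw [h5]
      refine Finset.prod_congr rfl fun i _ => ?_
      push_cast
      ring
    have hnum : num n (-(k : ℚ)) = (-1) ^ (17 * n) * (-1) ^ (13 * n) * (-1) ^ (9 * n) *
        (((17 * n).factorial : ℚ) * ((13 * n).factorial : ℚ) * ((9 * n).factorial : ℚ)) *
        ((k.choose (17 * n) * (k - 2 * n).choose (13 * n) * (k - 4 * n).choose (9 * n) : ℕ) : ℚ) := by
      unfold num N1 N2 N3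
      rw [cr_block 0 (17 * n) k (by omega) (by omega), cr_block (2 * n) (15 * n) k (by omega)
        (by omega), cr_block (4 * n) (13 * n) k (by omega) (by omega)]
      have e1 : 15 * n - 2 * n = 13 * n := by omega
      have e2 : 13 * n - 4 * n = 9 * n := by omega
      rw [e1, e2, Nat.sub_zero, Nat.sub_zero]
      push_cast
      ring
    have hK1 : ∏ i ∈ (K1 n).erase k, ((i : ℚ) - k) =
        (-1) ^ (k - 19 * n) * (((k - 19 * n).factorial : ℚ) * ((40 * n + 1 - k).factorial : ℚ)) := by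
      rw [K1, cr_K1 (19 * n) (40 * n + 2) k (by omega) (by omega)]
      have e1 : 40 * n + 2 - 1 - k = 40 * n + 1 - k := by omega
      rw [e1]
    have hch : (((21 * n + 1).factorial : ℕ) : ℚ) =
        ((21 * n + 1).choose (k - 19 * n) : ℚ) *
          (((k - 19 * n).factorial : ℚ) * ((40 * n + 1 - k).factorial : ℚ)) := by
      have h6 := Nat.choose_mul_factorial_mul_factorial (n := 21 * n + 1) (k := k - 19 * n)
        (by omega)
      have e1 : 21 * n + 1 - (k - 19 * n) = 40 * n + 1 - k := by omega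
      rw [e1] at h6
      rw [← h6]
      push_cast
      ring
    have hf : ∀ m : ℕ, ((m.factorial : ℕ) : ℚ) ≠ 0 := fun m => by exact_mod_cast m.factorial_ne_zero
    have hs : ∀ m : ℕ, ((-1 : ℚ)) ^ m ≠ 0 := fun m => pow_ne_zero _ (by norm_num)
    have hmain : kap n * num n (-(k : ℚ)) /
        ((∏ i ∈ (K1 n).erase k, ((i : ℚ) - k)) * ∏ i ∈ K2 n, ((i : ℚ) - k)) =
        (-1) ^ (17 * n + 13 * n + 9 * n + (k - 19 * n)) *
        ((((k.choose (17 * n) * (k - 2 * n).choose (13 * n) * (k - 4 * n).choose (9 * n) *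
          (21 * n + 1).choose (k - 19 * n) : ℕ) : ℚ)) * R) := by
      rw [hnum, hK1, hR, hK2]
      unfold kap
      rw [hch]
      have h7 : ((-1 : ℚ)) ^ (k - 19 * n) * (-1) ^ (k - 19 * n) = 1 := by
        rw [← mul_pow]
        norm_num
      have h8 := hf (17 * n)
      have h9 := hf (13 * n)
      have h10 := hf (9 * n)
      have h11 := hf (k - 19 * n)
      have h12 := hf (40 * n + 1 - k)
      have h13 := hs (k - 19 * n)
      have h14 : ∏ l ∈ range (18 * n + 1 + 1), (((((20 * n : ℕ) : ℤ) - (k : ℤ) : ℤ) : ℚ) + l) ≠ 0 := by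
        refine Finset.prod_ne_zero_iff.2 fun l hl => ?_
        rw [Finset.mem_range] at hl
        have h15 : (((20 * n : ℕ) : ℤ) - (k : ℤ)) + l ≠ 0 := by omega
        exact_mod_cast h15
      generalize (∏ l ∈ range (18 * n + 1 + 1),
        (((((20 * n : ℕ) : ℤ) - (k : ℤ) : ℤ) : ℚ) + l)) = Q at h14 ⊢
      rw [pow_add, pow_add, pow_add]
      push_cast
      field_simp
      rw [pow_two, h7, mul_one]
    rw [hmain, cr_neg_one_pow, padicNorm.mul]
    calc _ ≤ 1 * (p : ℚ) ^ Nat.log p (40 * n + 2) :=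
          mul_le_mul (padicNorm.of_nat _) hRle (padicNorm.nonneg _) zero_le_one
      _ = _ := one_mul _

end

theorem crude4 (n p : ℕ) (hn : 1 ≤ n) (hp : p.Prime) :
    PB4 n p (4 * (Nat.log p (40 * n + 2) : ℤ)) := by
  have : Fact p.Prime := ⟨hp⟩
  set L := Nat.log p (40 * n + 2) with hL
  have hz : (p : ℚ) ^ (4 * (L : ℤ)) = (p : ℚ) ^ (4 * L) := by
    rw [← zpow_natCast]
    push_cast
    rfl
  have h0 : (0 : ℚ) ≤ (p : ℚ) ^ (4 * L) := by positivity
  have hk1 : ∀ (j k : ℕ), padicNorm p ((-(k : ℚ)) ^ j) ≤ 1 := by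
    intro j k
    have : (-(k : ℚ)) ^ j = (((-(k : ℤ)) ^ j : ℤ) : ℚ) := by push_cast; rfl
    rw [this]
    exact padicNorm.of_int _
  have hA : ∀ j k, padicNorm p (A n j k) ≤ 1 := by
    intro j k
    unfold A
    rw [padicNorm.mul]
    exact mul_le_one₀ (hk1 j k) (padicNorm.nonneg _) (cr_A0 n k)
  have hB : ∀ j, ∀ k ∈ K1 n, padicNorm p (B n j k) ≤ (p : ℚ) ^ L := by
    intro j k hk
    unfold B
    refine cr_add ?_ ?_
    · rw [padicNorm.mul]
      calc _ ≤ 1 * (p : ℚ) ^ L := mul_le_mul (hk1 j k) (cr_B0 n k hn hk) (padicNorm.nonneg _) zero_le_one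
        _ = _ := one_mul _
    · refine le_trans ?_ (cr_pow_one L)
      rw [padicNorm.mul, padicNorm.mul]
      refine mul_le_one₀ (mul_le_one₀ ?_ (padicNorm.nonneg _) (hk1 _ k)) (padicNorm.nonneg _)
        (cr_A0 n k)
      exact padicNorm.of_nat _
  have h6 : padicNorm p (6 : ℚ) ≤ 1 := by exact_mod_cast padicNorm.of_nat (p := p) 6
  have h2 : padicNorm p (2 : ℚ) ≤ 1 := by exact_mod_cast padicNorm.of_nat (p := p) 2
  intro j _
  rw [hz]
  unfold b4
  refine padicNorm.sum_le' (fun k hk => ?_) h0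
  have hkk := hk
  rw [K1, Finset.mem_Ico] at hkk
  refine cr_add ?_ ?_
  · rw [padicNorm.mul, padicNorm.mul]
    calc _ ≤ 1 * (p : ℚ) ^ (4 * L) := by
          refine mul_le_mul (mul_le_one₀ h6 (padicNorm.nonneg _) (hA j k))
            (cr_H 4 (k - 13 * n) (40 * n + 2) (by omega)) (padicNorm.nonneg _) zero_le_one
      _ = _ := one_mul _
  · rw [padicNorm.mul, padicNorm.mul]
    calc _ ≤ (1 * (p : ℚ) ^ L) * (p : ℚ) ^ (3 * L) := by
          refine mul_le_mul (mul_le_mul h2 (hB j k hk) (padicNorm.nonneg _) zero_le_one)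
            (cr_H 3 (k - 13 * n) (40 * n + 2) (by omega)) (padicNorm.nonneg _) (by positivity)
      _ = _ := by rw [one_mul, ← pow_add]; congr 1; ring

end Pool.Agent.Z34
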