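import Pool.Agent.Z34.Defs
import Pool.Agent.D23.Parts

/-!
# Derivative of the kernel and integration by parts on the line
-/

open Finset Filter Topology Complex MeasureTheory
open scoped BigOperators

namespace Pool.Agent.Z34

open Pool.Agent.Z3
open Pool.Agent.D23 (Th Th_eq abs_Th Ker_hasDeriv ln ln_re ln_hasDeriv continuous_ln)

theorem dKer_eq (y : ℝ) : dKer y = -(2 * Real.pi) * Th y * Ker y := by
  have hc : Real.cosh (Real.pi * y) ≠ 0 := (Real.cosh_pos _).ne'
  rw [Th_eq]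
  unfold dKer Ker
  field_simp

theorem dKer_hasDeriv (y : ℝ) : HasDerivAt Ker (dKer y) y := by
  rw [dKer_eq]
  exact Ker_hasDeriv y

theorem dKer_abs (y : ℝ) : |dKer y| ≤ 2 * Real.pi * Ker y := by
  rw [dKer_eq, abs_mul, abs_mul, abs_neg, abs_of_pos Real.two_pi_pos, abs_of_pos (Ker_pos y)]
  have h1 := (abs_Th y).le
  have h2 := Ker_pos y
  have h3 := Real.two_pi_pos
  have h4 : 2 * Real.pi * |Th y| ≤ 2 * Real.pi * 1 := by gcongr
  nlinarith

theorem dKer_neg (y : ℝ) : dKer (-y) = -dKer y := by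
  unfold dKer
  rw [mul_neg, Real.sinh_neg, Real.cosh_neg]
  ring

theorem mul_dKer_neg (y : ℝ) (hy : y ≠ 0) : y * dKer y < 0 := by
  unfold dKer
  have hc : 0 < Real.cosh (Real.pi * y) ^ 3 := pow_pos (Real.cosh_pos _) 3
  have hs : 0 < y * Real.sinh (Real.pi * y) := by
    rcases lt_or_gt_of_ne hy with h | h
    · have h1 : Real.sinh (Real.pi * y) < 0 :=
        Real.sinh_neg_iff.mpr (mul_neg_of_pos_of_neg Real.pi_pos h)
      exact mul_pos_of_neg_of_neg h h1
    · have h1 : 0 < Real.sinh (Real.pi * y) := Real.sinh_pos_iff.mpr (mul_pos Real.pi_pos h)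
      exact mul_pos h h1
  have h2 : y * (-(Real.pi ^ 2 * Real.sinh (Real.pi * y)) / Real.cosh (Real.pi * y) ^ 3) =
      -(Real.pi ^ 2 * (y * Real.sinh (Real.pi * y)) / Real.cosh (Real.pi * y) ^ 3) := by ring
  rw [h2]
  have h3 : 0 < Real.pi ^ 2 * (y * Real.sinh (Real.pi * y)) / Real.cosh (Real.pi * y) ^ 3 := by
    positivity
  linarith

theorem continuous_dKer : Continuous dKer := by
  have h : dKer = fun y => -(2 * Real.pi) * Th y * Ker y := funext dKer_eq
  rw [h]
  exact (continuous_const.mul D23.continuous_Th).mul continuous_Ker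

/-- integrability against the derivative of the kernel -/
theorem integrable_dKer_mul (f : ℝ → ℂ) (hf : Continuous f) (C : ℝ) (d : ℕ)
    (h : ∀ y, ‖f y‖ ≤ C * (1 + |y|) ^ d) :
    Integrable (fun y : ℝ => f y * (dKer y : ℂ)) := by
  have h1 := integrable_Ker_mul (fun y => f y * ((-(2 * Real.pi) * Th y : ℝ) : ℂ))
    (hf.mul (Complex.continuous_ofReal.comp (continuous_const.mul D23.continuous_Th)))
    (C * (2 * Real.pi)) d (fun y => by
      rw [norm_mul, Complex.norm_real, Real.norm_eq_abs, abs_mul, abs_neg,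
        abs_of_pos Real.two_pi_pos]
      have h2 := (abs_Th y).le
      have h3 := Real.two_pi_pos
      have h4 : 2 * Real.pi * |Th y| ≤ 2 * Real.pi := by nlinarith
      calc ‖f y‖ * (2 * Real.pi * |Th y|) ≤ (C * (1 + |y|) ^ d) * (2 * Real.pi) :=
            mul_le_mul (h y) h4 (by positivity) ((norm_nonneg _).trans (h y))
        _ = _ := by ring)
  refine h1.congr (Filter.Eventually.of_forall fun y => ?_)
  simp only
  rw [dKer_eq]
  push_cast
  ring

/-- integration by parts on the line Re t = m - 1/2 -/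
theorem Iint_deriv (m : ℤ) (g : ℂ → ℂ) (U : Set ℂ) (hU : IsOpen U)
    (hstrip : ∀ t : ℂ, t.re = (m : ℝ) - 1 / 2 → t ∈ U)
    (hg : DifferentiableOn ℂ g U)
    (hgr : ∃ C : ℝ, ∃ d : ℕ, ∀ y : ℝ, ‖g ((m : ℂ) - 1 / 2 + (y : ℂ) * Complex.I)‖ ≤ C * (1 + |y|) ^ d)
    (hgr' : ∃ C : ℝ, ∃ d : ℕ, ∀ y : ℝ,
      ‖deriv g ((m : ℂ) - 1 / 2 + (y : ℂ) * Complex.I)‖ ≤ C * (1 + |y|) ^ d) :
    Iint m (deriv g) =
      ∫ y : ℝ, g ((m : ℂ) - 1 / 2 + (y : ℂ) * Complex.I) * (Complex.I * (dKer y : ℂ)) := by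
  obtain ⟨C, d, hC⟩ := hgr
  obtain ⟨C', d', hC'⟩ := hgr'
  have hd : ∀ y : ℝ, HasDerivAt g (deriv g (ln m y)) (ln m y) := fun y =>
    (hg.differentiableAt (hU.mem_nhds (hstrip _ (ln_re m y)))).hasDerivAt
  have hgc : Continuous (fun y : ℝ => g (ln m y)) := by
    rw [continuous_iff_continuousAt]
    intro y
    exact ContinuousAt.comp (f := ln m) (hd y).continuousAt (continuous_ln m).continuousAt
  have hgc' : Continuous (fun y : ℝ => deriv g (ln m y)) := by
    rw [continuous_iff_continuousAt]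
    intro y
    have h1 : DifferentiableAt ℂ (deriv g) (ln m y) :=
      (hg.deriv hU).differentiableAt (hU.mem_nhds (hstrip _ (ln_re m y)))
    exact ContinuousAt.comp (f := ln m) h1.continuousAt (continuous_ln m).continuousAt
  have hu : ∀ y : ℝ, HasDerivAt (fun y => g (ln m y)) (deriv g (ln m y) * Complex.I) y := fun y =>
    HasDerivAt.comp y (hd y) (ln_hasDeriv m y)
  have hv : ∀ y : ℝ, HasDerivAt (fun y => ((Ker y : ℝ) : ℂ)) ((dKer y : ℝ) : ℂ) y :=
    fun y => (dKer_hasDeriv y).ofReal_comp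
  have i1 : Integrable (fun y : ℝ => g (ln m y) * ((dKer y : ℝ) : ℂ)) :=
    integrable_dKer_mul _ hgc C d (fun y => hC y)
  have i2 : Integrable (fun y : ℝ => deriv g (ln m y) * ((Ker y : ℝ) : ℂ)) :=
    integrable_Ker_mul _ hgc' C' d' (fun y => hC' y)
  have i3 : Integrable (fun y : ℝ => g (ln m y) * ((Ker y : ℝ) : ℂ)) :=
    integrable_Ker_mul _ hgc C d (fun y => hC y)
  have h := integral_mul_deriv_eq_deriv_mul_of_integrable
    (u := fun y => g (ln m y)) (u' := fun y => deriv g (ln m y) * Complex.I)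
    (v := fun y => ((Ker y : ℝ) : ℂ)) (v' := fun y => ((dKer y : ℝ) : ℂ))
    (fun y _ => hu y) (fun y _ => hv y) i1
    (by
      refine (i2.mul_const Complex.I).congr (Filter.Eventually.of_forall fun y => ?_)
      simp only [Pi.mul_apply]
      ring) i3
  have h2 : (fun y : ℝ => deriv g (ln m y) * Complex.I * ((Ker y : ℝ) : ℂ)) =
      fun y => Complex.I * (deriv g (ln m y) * ((Ker y : ℝ) : ℂ)) := by
    funext y
    ring
  simp only [h2] at h
  rw [integral_const_mul] at h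
  have h4 : (∫ y : ℝ, g ((m : ℂ) - 1 / 2 + (y : ℂ) * Complex.I) * (Complex.I * (dKer y : ℂ))) =
      Complex.I * ∫ y : ℝ, g (ln m y) * ((dKer y : ℝ) : ℂ) := by
    rw [← integral_const_mul]
    congr 1
    funext y
    unfold ln
    ring
  rw [h4, h]
  have h3 := Complex.I_mul_I
  unfold Iint
  change ∫ y : ℝ, deriv g (ln m y) * (Ker y : ℂ) = _
  linear_combination (∫ y : ℝ, deriv g (ln m y) * ((Ker y : ℝ) : ℂ)) * h3

end Pool.Agent.Z34
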