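import Pool.Agent.Z34.Defs
import Pool.Agent.Z3.Red

/-!
Cells with exactly one gap in which phi is -1.
-/

open Finset

namespace Pool.Agent.Z34

open Pool.Agent.Z3

open Pool.Agent.Z3.Red in
/-- a red cell has exactly one gap with phi = -1 -/
theorem gap_of_red (n p N0 P0 c1 : ℕ) (L : List ℕ) (hn : 1 ≤ n) (hp : p.Prime)
    (hp2 : 40 * n + 2 < p ^ 2) (hg : Good n p) (hc : SameCell n p N0 P0)
    (hr : redCheck N0 P0 c1 L = true) :
    (∃ s1 s2 : ℕ, ∃ pi : Equiv.Perm (Fin 5), Gap n p s1 s2 pi) ∧ e0 n p = e00 N0 P0 := by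
  unfold redCheck at hr
  simp only [Bool.and_eq_true, decide_eq_true_eq, List.all_eq_true, Bool.or_eq_true,
    List.mem_range] at hr
  obtain ⟨⟨⟨⟨⟨⟨⟨hc1, hnd⟩, hphi⟩, hphi1⟩, hlen⟩, hLnd⟩, hLlt⟩, harc⟩ := hr
  have hP0 : 0 < P0 := hc.1
  have hp0 : 0 < p := hp.pos
  have hord := order_cell n p N0 P0 hn hp hg hc hnd
  have hcell := phi_cell n p N0 P0 hn hp hg hc hnd
  set rho : ℕ → ℕ := fun c => (c * n + off c) % p with hrho
  have hord' : ∀ c ∈ pts, ∀ d ∈ pts, (rho c < rho d ↔ c * N0 % P0 < d * N0 % P0) :=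
    fun c hcc d hd => hord c d hcc hd
  have hs1p : rho c1 < p := Nat.mod_lt _ hp0
  obtain ⟨s2, h12, h2p, hend, hatt⟩ := exists_end p (rho c1) hs1p rho pts
  obtain ⟨pi, hpi⟩ := exists_perm L hlen hLnd hLlt
  have hval : ∀ c ∈ pts, -1 ≤ phi0 N0 P0 (c * N0 % P0) ∧
      (phi0 N0 P0 (c * N0 % P0) = -1 → c = c1) := by
    intro c hcc
    rcases hphi c hcc with h | ⟨h, h'⟩
    · exact ⟨by omega, fun h' => by omega⟩
    · exact ⟨by omega, fun _ => h⟩
  have g : Gap n p (rho c1) s2 pi := by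
    refine ⟨hn, hp, hp2, ?_, ?_, h12, h2p, ?_, ?_, ?_, ?_, ?_⟩
    · by_contra hcon
      have : p ≤ 4 := by omega
      have : p ^ 2 ≤ 4 ^ 2 := Nat.pow_le_pow_left this 2
      omega
    · intro s hs
      obtain ⟨c, hcc, -, -, h⟩ := hcell s hs
      rw [h]
      exact (hval c hcc).1
    · obtain ⟨c, hcc, h1, h2, h⟩ := hcell (rho c1) hs1p
      have h3 := h2 c1 hc1 le_rfl
      have h4 : ¬ (rho c1 < rho c) := not_lt.2 h1
      rw [hord' c1 hc1 c hcc] at h4
      have h5 : c * N0 % P0 = c1 * N0 % P0 := by omega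
      rw [h, h5, hphi1]
    · intro s hs hm
      obtain ⟨c, hcc, h1, h2, h⟩ := hcell s hs
      rw [h] at hm
      have h3 := (hval c hcc).2 hm
      subst h3
      refine ⟨h1, ?_⟩
      by_contra hcon
      push Not at hcon
      rcases hatt with h4 | ⟨d, hd, h4⟩
      · omega
      · have h5 := h2 d hd (by change rho d ≤ s; omega)
        have h6 : rho c < rho d := by omega
        rw [hord' c hc1 d hd] at h6
        omega
    · intro i
      rw [al_eq]
      exact hend _ (ca_mem _)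
    · intro i
      rw [be_eq]
      exact hend _ (cb_mem _)
    · intro i
      have h1 := harc i i.isLt
      rw [← hpi i, ca_getD, cb_getD] at h1
      have hcst : ∀ c : ℕ, ((c * n + off c : ℕ) : ℤ) % (p : ℤ) = (rho c : ℕ) := fun c => by
        rw [hrho]; push_cast; rfl
      have hcst' : ∀ c : ℕ, ((c : ℤ) * (N0 : ℤ)) % (P0 : ℤ) = ((c * N0 % P0 : ℕ) : ℤ) := fun c => by
        push_cast; rfl
      have hz : ((rho c1 : ℕ) : ℤ) % (p : ℤ) = (rho c1 : ℕ) := by
        exact_mod_cast Nat.mod_eq_of_lt hs1p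
      refine arc_transfer _ _ _ (ca (pi i) * N0) (cb i * N0) (c1 * N0) _ (P0 : ℤ)
        (by exact_mod_cast hp0) (by exact_mod_cast hP0) ?_ ?_ ?_ h1
      · rw [al_eq, be_eq, hcst, hcst, hcst', hcst']
        exact_mod_cast hord' _ (ca_mem _) _ (cb_mem _)
      · rw [be_eq, hz, hcst, hcst', hcst']
        exact_mod_cast hord' _ hc1 _ (cb_mem _)
      · rw [al_eq, hz, hcst, hcst', hcst']
        exact_mod_cast hord' _ hc1 _ (ca_mem _)
  exact ⟨⟨_, _, _, g⟩, e0_cell n p N0 P0 hn hp hg hc hnd⟩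

end Pool.Agent.Z34
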