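import Pool.Agent.Z34.Table4
import Pool.Agent.Z3.Int

/-!
Integrality of the two linear forms after multiplication by the common denominator.
-/

open Finset

namespace Pool.Agent.Z34

open Pool.Agent.Z3

theorem D4_pos (n : ℕ) : 0 < D4 n := by
  unfold D4
  exact Finset.prod_pos fun p hp => pow_pos (mem_filter.1 hp).2.pos _

theorem D4_integral (n j : ℕ) (hn : 1 ≤ n) (hj : j ≤ 2) :
    (∃ z : ℤ, (D4 n : ℚ) * a n j = z) ∧ (∃ z : ℤ, (D4 n : ℚ) * b n j = z) ∧
      ∃ z : ℤ, (D4 n : ℚ) * b4 n j = z := by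
  have h1 := int_of_PBound n (ex4 n) (fun p hp _ => (ex4_bound n p hn hp).1)
    (fun p hp hlt => big3 n p hn hp (by nlinarith) (by omega)) j hj
  refine ⟨h1.1, h1.2, int_of_padicNorm_le _ fun p hp => ?_⟩
  have : Fact p.Prime := ⟨hp⟩
  have hp0 : (0 : ℚ) < p := by exact_mod_cast hp.pos
  unfold D4
  rw [padicNorm.mul, padicNorm_prod_pow _ (fun q hq => (Finset.mem_filter.mp hq).2) (ex4 n) p hp]
  by_cases hle : p ≤ 40 * n + 2
  · rw [if_pos (Finset.mem_filter.mpr ⟨Finset.mem_range.mpr (by omega), hp⟩)]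
    calc (p : ℚ) ^ (-(ex4 n p : ℤ)) * padicNorm p (b4 n j) ≤
          (p : ℚ) ^ (-(ex4 n p : ℤ)) * (p : ℚ) ^ (ex4 n p : ℤ) := by
          gcongr
          exact (ex4_bound n p hn hp).2 j hj
      _ = 1 := by rw [← zpow_add₀ hp0.ne', neg_add_cancel, zpow_zero]
  · push Not at hle
    rw [if_neg (fun h => absurd (Finset.mem_range.mp (Finset.mem_filter.mp h).1) (by omega)), one_mul]
    have := big4d n p hn hp (by nlinarith) (by omega) j hj
    rwa [zpow_zero] at this

end Pool.Agent.Z34
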