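import Pool.Agent.Z3.Nonvan
import Pool.Agent.D23.Parts
import Pool.Agent.D23.Tele
import Pool.Agent.Z34.Defs

/-!
Module NONVAN4: if the three combinations `x * F3 N j + y * F4 N j`, `j = 0, 1, 2`, are equal to `l` times the
leading coefficient `a n j` (`n = 4 N`), then `x = y = 0`.
-/

open Finset Polynomial MeasureTheory

namespace Pool.Agent.Z34

open Pool.Agent.Z3 Pool.Agent.D23

namespace NV4

/-- coefficients of the functional -/
noncomputable def cf (x y : ℂ) : ℕ → ℂ := fun j => if j = 0 then x else y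

theorem den_norm (N : ℕ) (hN : 1 ≤ N) (t : ℂ) (h : -(26 * N : ℝ) < t.re) : 1 ≤ ‖den (4 * N) t‖ := by
  have h1 : (1 : ℝ) ≤ N := by exact_mod_cast hN
  have hf : ∀ i : ℕ, 76 * N ≤ i → 1 ≤ ‖t + (i : ℂ)‖ := by
    intro i hi
    have h2 : (76 * N : ℝ) ≤ i := by exact_mod_cast hi
    have h3 : (t + (i : ℂ)).re ≤ ‖t + (i : ℂ)‖ := Complex.re_le_norm _
    rw [Complex.add_re, Complex.natCast_re] at h3
    linarith
  unfold den K1 K2
  rw [norm_mul, norm_prod, norm_prod]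
  refine one_le_mul_of_one_le_of_one_le ?_ ?_
  · refine Finset.one_le_prod ?_
    intro i hi
    rw [mem_Ico] at hi
    exact hf i (by omega)
  · refine Finset.one_le_prod ?_
    intro i hi
    rw [mem_Ico] at hi
    exact hf i (by omega)

theorem mem_Us (N : ℕ) (hN : 1 ≤ N) (t : ℂ) (h : -(26 * N : ℝ) < t.re) : t ∈ NV.Us (4 * N) := by
  have h1 : (1 : ℝ) ≤ N := by exact_mod_cast hN
  show -(19 * ((4 * N : ℕ) : ℝ)) < t.re
  push_cast
  linarith

/-- polynomial times the inverse of the denominator -/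
theorem HG_inv_den (N : ℕ) (hN : 1 ≤ N) : HG (-(26 * N : ℝ)) (fun t => (den (4 * N) t)⁻¹) := by
  refine ⟨?_, 1, 0, ?_⟩
  · have e : (fun t : ℂ => (den (4 * N) t)⁻¹) = fun t => ((NV.denP (4 * N)).eval t)⁻¹ := by
      funext t
      rw [NV.denP_eval]
    rw [e]
    refine DifferentiableOn.inv (Polynomial.differentiable _).differentiableOn ?_
    intro t ht
    rw [NV.denP_eval]
    exact NV.den_ne _ t (mem_Us N hN t ht)
  · intro t ht
    rw [norm_inv, pow_zero, mul_one]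
    exact inv_le_one_of_one_le₀ (den_norm N hN t ht)

theorem HG_PG (N : ℕ) (hN : 1 ≤ N) (P : ℂ[X]) : HG (-(26 * N : ℝ)) (NV.PG (4 * N) P) := by
  refine ((HG_poly _ (C ((kap (4 * N) : ℚ) : ℂ) * P * NV.numP (4 * N))).mul
    (HG_inv_den N hN)).congr (fun t _ => ?_)
  rw [NV.PG_eq]

theorem hm (N : ℕ) (hN : 1 ≤ N) : -(26 * N : ℝ) < ((-(25 * (N : ℤ)) : ℤ) : ℝ) - 1 / 2 := by
  have h1 : (1 : ℝ) ≤ N := by exact_mod_cast hN
  push_cast
  linarith

/-- triple zero at `-25 N` -/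
theorem PG_factor (N : ℕ) (hN : 1 ≤ N) (P : ℂ[X]) (t : ℂ) :
    NV.PG (4 * N) P t = (t - ((-(25 * (N : ℤ)) : ℤ) : ℂ)) ^ 3 *
        ((C ((kap (4 * N) : ℚ) : ℂ) * P).eval t *
          ((∏ i ∈ (N1 (4 * N)).erase (25 * N), (t + (i : ℂ))) *
          (∏ i ∈ (N2 (4 * N)).erase (25 * N), (t + (i : ℂ))) *
          ∏ i ∈ (N3 (4 * N)).erase (25 * N), (t + (i : ℂ))) * (den (4 * N) t)⁻¹) := by
  have m1 : 25 * N ∈ N1 (4 * N) := by rw [N1, mem_Ico]; omega
  have m2 : 25 * N ∈ N2 (4 * N) := by rw [N2, mem_Ico]; omega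
  have m3 : 25 * N ∈ N3 (4 * N) := by rw [N3, mem_Ico]; omega
  have e1 := mul_prod_erase (N1 (4 * N)) (fun i : ℕ => t + (i : ℂ)) m1
  have e2 := mul_prod_erase (N2 (4 * N)) (fun i : ℕ => t + (i : ℂ)) m2
  have e3 := mul_prod_erase (N3 (4 * N)) (fun i : ℕ => t + (i : ℂ)) m3
  have e4 : (t - ((-(25 * (N : ℤ)) : ℤ) : ℂ)) = t + ((25 * N : ℕ) : ℂ) := by
    push_cast; ring
  unfold NV.PG G num
  simp only [eval_mul, eval_C]
  rw [← e1, ← e2, ← e3, e4, pow_zero, div_eq_mul_inv]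
  ring

theorem iter_zero (N : ℕ) (hN : 1 ≤ N) (P : ℂ[X]) (j : ℕ) (hj : j ≤ 2) :
    iteratedDeriv j (NV.PG (4 * N) P) ((-(25 * (N : ℤ)) : ℤ) : ℂ) = 0 := by
  refine iteratedDeriv_zero_of_factor (isOpen_half (-(26 * N : ℝ))) ?_ j 3 _ _ (by omega) ?_
    (fun t _ => PG_factor N hN P t)
  · change -(26 * N : ℝ) < (((-(25 * (N : ℤ)) : ℤ) : ℂ)).re
    have := hm N hN
    rw [Complex.intCast_re]
    linarith
  · have hp : ∀ s : Finset ℕ, Differentiable ℂ (fun t : ℂ => ∏ i ∈ s, (t + (i : ℂ))) := by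
      intro s
      refine Differentiable.fun_finsetProd ?_
      intro i _
      exact differentiable_id.add_const _
    exact ((Polynomial.differentiable _).differentiableOn.mul
      (((hp _).mul (hp _)).mul (hp _)).differentiableOn).mul (HG_inv_den N hN).1

/-- the functional vanishes on telescoping polynomials -/
theorem Lf_ES (N : ℕ) (hN : 1 ≤ N) (c : ℕ → ℂ) (S : ℂ[X]) :
    Lf c 1 (-(25 * (N : ℤ))) (NV.PG (4 * N) (NV.ES (4 * N) S)) = 0 := by
  set m : ℤ := -(25 * (N : ℤ)) with hmd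
  set g := NV.PG (4 * N) (S * NV.BP (4 * N)) with hg
  have hG : HG (-(26 * N : ℝ)) g := HG_PG N hN _
  have h1 : Lf c 1 m (NV.PG (4 * N) (NV.ES (4 * N) S)) =
      Lf c 1 m (fun t => g (t + 1) + (-1) * g t) := by
    refine Lf_congr c 1 (fun t ht => ?_) m (hm N hN)
    rw [NV.PG_shift (4 * N) S t (mem_Us N hN t ht) (mem_Us N hN (t + 1) (by
      rw [Complex.add_re, Complex.one_re]
      linarith))]
    ring
  have hG1 : HG (-(26 * N : ℝ)) (fun t => g (t + 1)) := by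
    have := hG.comp_add 1 zero_le_one
    simpa using this
  rw [h1, Lf_add c 1 hG1 (hG.const_mul (-1)) m (hm N hN), Lf_const_mul, Lf_comp_add_one,
    Lf_shift c 1 hG m (hm N hN) (fun j _ hj => iter_zero N hN _ j hj)]
  ring

/-! ### positivity -/

/-- the test polynomial -/
noncomputable def Wc (N : ℕ) : ℂ[X] :=
  (NV.numP (4 * N)).comp (C (2 * (((-(25 * (N : ℤ)) : ℤ)) : ℂ) - 1) - X)

theorem den_ne' (N : ℕ) (hN : 1 ≤ N) (y : ℝ) : den (4 * N) (ln (-(25 * (N : ℤ))) y) ≠ 0 := by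
  refine NV.den_ne _ _ (mem_Us N hN _ ?_)
  rw [ln_re]
  exact hm N hN

theorem PG_W (N : ℕ) (hN : 1 ≤ N) (T : ℂ[X]) (y : ℝ) :
    NV.PG (4 * N) (NV.denP (4 * N) * (Wc N * T)) (ln (-(25 * (N : ℤ))) y) =
      T.eval (ln (-(25 * (N : ℤ))) y) *
        (((kap (4 * N) : ℝ) * ‖num (4 * N) (ln (-(25 * (N : ℤ))) y)‖ ^ 2 : ℝ) : ℂ) := by
  set m : ℤ := -(25 * (N : ℤ)) with hmd
  set n : ℕ := 4 * N with hn
  set t : ℂ := ln m y with ht
  have hd : den n t ≠ 0 := den_ne' N hN y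
  have hconj : 2 * (m : ℂ) - 1 - t = (starRingEnd ℂ) t := by
    rw [ht]
    unfold ln
    simp only [map_add, map_sub, map_mul, map_div₀, map_one, map_ofNat, Complex.conj_ofReal,
      Complex.conj_I, map_intCast]
    ring
  have hnum : num n ((starRingEnd ℂ) t) = (starRingEnd ℂ) (num n t) := by
    unfold num
    simp only [map_mul, map_prod, map_add, map_natCast]
  have h2 : NV.PG n (NV.denP n * (Wc N * T)) t =
      T.eval t * ((kap n : ℂ) * ((starRingEnd ℂ) (num n t) * num n t)) := by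
    unfold NV.PG G Wc
    rw [eval_mul, eval_mul, eval_comp, NV.denP_eval, NV.numP_eval]
    simp only [eval_sub, eval_C, eval_X]
    rw [← hmd, hconj, hnum, pow_zero]
    field_simp
  rw [h2, Complex.conj_mul']
  push_cast
  ring

theorem kap_pos (n : ℕ) : 0 < (kap n : ℝ) := by
  have : 0 < kap n := by
    unfold kap
    positivity
  exact_mod_cast this

theorem num_ne (N : ℕ) (y : ℝ) : num (4 * N) (ln (-(25 * (N : ℤ))) y) ≠ 0 := by
  set m : ℤ := -(25 * (N : ℤ)) with hmd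
  have hf : ∀ i : ℕ, ln m y + (i : ℂ) ≠ 0 := by
    intro i h0
    have h3 : (ln m y + (i : ℂ)).re = 0 := by rw [h0]; simp
    rw [Complex.add_re, ln_re, Complex.natCast_re] at h3
    have h4 : (2 * (m + i) : ℤ) = 1 := by
      have h5 : ((2 * (m + i) : ℤ) : ℝ) = ((1 : ℤ) : ℝ) := by
        push_cast
        linarith
      exact_mod_cast h5
    omega
  unfold num
  refine mul_ne_zero (mul_ne_zero ?_ ?_) ?_ <;>
  exact prod_ne_zero_iff.mpr (fun i _ => hf i)

/-- the positive density -/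
noncomputable def rho (N : ℕ) (y : ℝ) : ℝ :=
  (kap (4 * N) : ℝ) * ‖num (4 * N) (ln (-(25 * (N : ℤ))) y)‖ ^ 2

theorem rho_pos (N : ℕ) (y : ℝ) : 0 < rho N y := by
  unfold rho
  have h1 := kap_pos (4 * N)
  have h2 : 0 < ‖num (4 * N) (ln (-(25 * (N : ℤ))) y)‖ := norm_pos_iff.mpr (num_ne N y)
  positivity

/-- the functional on a test polynomial as one integral -/
theorem Lf_W (N : ℕ) (hN : 1 ≤ N) (x z : ℂ) (T : ℂ[X]) :
    Lf (cf x z) 1 (-(25 * (N : ℤ))) (NV.PG (4 * N) (NV.denP (4 * N) * (Wc N * T))) =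
      ∫ y : ℝ, T.eval (ln (-(25 * (N : ℤ))) y) * (rho N y : ℂ) *
        ((x - 2 * Real.pi * Complex.I * z * (Th y : ℂ)) * (Ker y : ℂ)) := by
  set m : ℤ := -(25 * (N : ℤ)) with hmd
  set g := NV.PG (4 * N) (NV.denP (4 * N) * (Wc N * T)) with hg
  have hG : HG (-(26 * N : ℝ)) g := HG_PG N hN _
  have hmm := hm N hN
  rw [← hmd] at hmm
  have hd : ∀ t : ℂ, t.re = (m : ℝ) - 1 / 2 → HasDerivAt g (deriv g t) t := by
    intro t ht
    exact (hG.differentiableAt (by rw [ht]; exact hmm)).hasDerivAt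
  have hx : -(26 * N : ℝ) < (-(26 * N : ℝ) + ((m : ℝ) - 1 / 2)) / 2 := by linarith
  have hG' : HG ((-(26 * N : ℝ) + ((m : ℝ) - 1 / 2)) / 2) (deriv g) := hG.deriv hx
  have hc' : ∀ t : ℂ, t.re = (m : ℝ) - 1 / 2 → ContinuousAt (deriv g) t := by
    intro t ht
    exact (hG'.differentiableAt (by rw [ht]; linarith)).continuousAt
  have h := Lf_eq x (-(2 * z)) m g (deriv g) hd hc' (hG.polyGrowth m hmm)
    (hG'.polyGrowth m (by linarith))
  have h0 : Lf (cf x z) 1 m g = x * Iint m g - -(2 * z) / 2 * Iint m (deriv g) := by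
    unfold Lf
    rw [sum_range_succ, sum_range_one, iteratedDeriv_zero, iteratedDeriv_one]
    simp only [cf, if_true, one_ne_zero, if_false]
    ring
  rw [h0, h]
  refine integral_congr_ae (Filter.Eventually.of_forall (fun y => ?_))
  simp only
  rw [hg, PG_W N hN T y]
  unfold rho
  ring

/-- integrability of the density times a polynomial times a bounded function times the kernel -/
theorem int_rho (N : ℕ) (hN : 1 ≤ N) (T : ℂ[X]) (b : ℝ → ℝ) (B : ℝ) (hb : Continuous b)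
    (hB : ∀ y, |b y| ≤ B) :
    Integrable (fun y : ℝ => T.eval (ln (-(25 * (N : ℤ))) y) * (rho N y : ℂ) *
      ((b y * Ker y : ℝ) : ℂ)) := by
  set m : ℤ := -(25 * (N : ℤ)) with hmd
  set g := NV.PG (4 * N) (NV.denP (4 * N) * (Wc N * T)) with hg
  have hG : HG (-(26 * N : ℝ)) g := HG_PG N hN _
  have hmm := hm N hN
  rw [← hmd] at hmm
  have h := integrable_line_mul m g b B hb hB (fun t ht =>
    (hG.differentiableAt (by rw [ht]; exact hmm)).continuousAt) (hG.polyGrowth m hmm)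
  refine h.congr (Filter.Eventually.of_forall (fun y => ?_))
  simp only
  rw [hg, PG_W N hN T y]
  unfold rho
  rfl

theorem int_pos_of (f : ℝ → ℝ) (hf : Integrable f) (h0 : ∀ y, 0 ≤ f y) (h1 : ∀ y, y ≠ 0 → 0 < f y) :
    0 < ∫ y, f y := by
  rw [integral_pos_iff_support_of_nonneg h0 hf]
  have hs : ({0} : Set ℝ)ᶜ ⊆ Function.support f := by
    intro y hy
    exact (h1 y hy).ne'
  refine lt_of_lt_of_le ?_ (measure_mono hs)
  rw [measure_compl (measurableSet_singleton 0) (by simp)]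
  simp

theorem rho_neg (N : ℕ) (y : ℝ) : rho N (-y) = rho N y := by
  have h : ln (-(25 * (N : ℤ))) (-y) = (starRingEnd ℂ) (ln (-(25 * (N : ℤ))) y) := by
    unfold ln
    simp only [map_add, map_sub, map_mul, map_div₀, map_one, map_ofNat, Complex.conj_ofReal,
      Complex.conj_I, map_intCast]
    push_cast
    ring
  have hnum : ∀ t : ℂ, num (4 * N) ((starRingEnd ℂ) t) = (starRingEnd ℂ) (num (4 * N) t) := by
    intro t
    unfold num
    simp only [map_mul, map_prod, map_add, map_natCast]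
  unfold rho
  rw [h, hnum, Complex.norm_conj]

theorem Ker_neg (y : ℝ) : Ker (-y) = Ker y := by
  unfold Ker
  rw [mul_neg, Real.cosh_neg]

theorem int_odd (N : ℕ) : ∫ y : ℝ, rho N y * (Th y * Ker y) = 0 := by
  have h := integral_neg_eq_self (fun y : ℝ => rho N y * (Th y * Ker y)) volume
  have e : ∀ y : ℝ, rho N (-y) * (Th (-y) * Ker (-y)) = -(rho N y * (Th y * Ker y)) := by
    intro y
    rw [rho_neg, Th_neg, Ker_neg]
    ring
  rw [integral_congr_ae (Filter.Eventually.of_forall e), integral_neg] at h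
  linarith

/-- first test: the functional without the derivative -/
theorem test1 (N : ℕ) (hN : 1 ≤ N) (x z : ℂ) :
    Lf (cf x z) 1 (-(25 * (N : ℤ))) (NV.PG (4 * N) (NV.denP (4 * N) * (Wc N * 1))) =
      x * ((∫ y : ℝ, rho N y * Ker y : ℝ) : ℂ) ∧ 0 < ∫ y : ℝ, rho N y * Ker y := by
  rw [Lf_W N hN]
  have hi1 := int_rho N hN 1 (fun _ => 1) 1 continuous_const (fun _ => by simp)
  have hi2 := int_rho N hN 1 Th 1 continuous_Th (fun y => (abs_Th y).le)
  have e : ∀ y : ℝ, (1 : ℂ[X]).eval (ln (-(25 * (N : ℤ))) y) * (rho N y : ℂ) *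
        ((x - 2 * Real.pi * Complex.I * z * (Th y : ℂ)) * (Ker y : ℂ)) =
      x * ((rho N y * Ker y : ℝ) : ℂ) +
        (-(2 * Real.pi * Complex.I * z)) * ((rho N y * (Th y * Ker y) : ℝ) : ℂ) := by
    intro y
    rw [eval_one]
    push_cast
    ring
  rw [integral_congr_ae (Filter.Eventually.of_forall e)]
  have r1 : Integrable (fun y : ℝ => rho N y * Ker y) := by
    refine hi1.re.congr (Filter.Eventually.of_forall (fun y => ?_))
    simp only [eval_one, one_mul]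
    rw [← Complex.ofReal_mul]
    exact Complex.ofReal_re _
  have r2 : Integrable (fun y : ℝ => rho N y * (Th y * Ker y)) := by
    refine hi2.re.congr (Filter.Eventually.of_forall (fun y => ?_))
    simp only [eval_one, one_mul]
    rw [← Complex.ofReal_mul]
    exact Complex.ofReal_re _
  constructor
  · have i1 : Integrable (fun y : ℝ => x * ((rho N y * Ker y : ℝ) : ℂ)) := by
      have : Integrable (fun y : ℝ => ((rho N y * Ker y : ℝ) : ℂ)) := r1.ofReal
      exact this.const_mul x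
    have i2 : Integrable (fun y : ℝ => (-(2 * Real.pi * Complex.I * z)) *
        ((rho N y * (Th y * Ker y) : ℝ) : ℂ)) := by
      have : Integrable (fun y : ℝ => ((rho N y * (Th y * Ker y) : ℝ) : ℂ)) := r2.ofReal
      exact this.const_mul _
    rw [integral_add i1 i2, integral_const_mul, integral_const_mul, integral_complex_ofReal,
      integral_complex_ofReal, int_odd]
    simp
  · refine int_pos_of _ r1 (fun y => ?_) (fun y _ => ?_)
    · exact (mul_pos (rho_pos N y) (Ker_pos y)).le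
    · exact mul_pos (rho_pos N y) (Ker_pos y)

theorem Th_mul_pos (y : ℝ) (hy : y ≠ 0) : 0 < y * Th y := by
  rw [Th_eq]
  rcases lt_or_gt_of_ne hy with h | h
  · have h1 : Real.sinh (Real.pi * y) < 0 := by
      rw [Real.sinh_neg_iff]
      exact mul_neg_of_pos_of_neg Real.pi_pos h
    exact mul_pos_of_neg_of_neg h (div_neg_of_neg_of_pos h1 (Real.cosh_pos _))
  · have h1 : 0 < Real.sinh (Real.pi * y) := by
      rw [Real.sinh_pos_iff]
      exact mul_pos Real.pi_pos h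
    exact mul_pos h (div_pos h1 (Real.cosh_pos _))

/-- second test -/
theorem test2 (N : ℕ) (hN : 1 ≤ N) (z : ℂ) :
    Lf (cf 0 z) 1 (-(25 * (N : ℤ))) (NV.PG (4 * N) (NV.denP (4 * N) *
      (Wc N * (X - C (((-(25 * (N : ℤ)) : ℤ) : ℂ) - 1 / 2))))) =
      z * ((2 * Real.pi * ∫ y : ℝ, y * Th y * (rho N y * Ker y) : ℝ) : ℂ) ∧
    0 < 2 * Real.pi * ∫ y : ℝ, y * Th y * (rho N y * Ker y) := by
  rw [Lf_W N hN]
  have hi2 := int_rho N hN (X - C (((-(25 * (N : ℤ)) : ℤ) : ℂ) - 1 / 2)) Th 1 continuous_Th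
    (fun y => (abs_Th y).le)
  have ev : ∀ y : ℝ, (X - C (((-(25 * (N : ℤ)) : ℤ) : ℂ) - 1 / 2) : ℂ[X]).eval
      (ln (-(25 * (N : ℤ))) y) = (y : ℂ) * Complex.I := by
    intro y
    rw [eval_sub, eval_X, eval_C]
    unfold ln
    ring
  have e : ∀ y : ℝ, (X - C (((-(25 * (N : ℤ)) : ℤ) : ℂ) - 1 / 2) : ℂ[X]).eval
        (ln (-(25 * (N : ℤ))) y) * (rho N y : ℂ) *
        ((0 - 2 * Real.pi * Complex.I * z * (Th y : ℂ)) * (Ker y : ℂ)) =
      (z * (2 * Real.pi)) * ((y * Th y * (rho N y * Ker y) : ℝ) : ℂ) := by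
    intro y
    rw [ev]
    push_cast
    have h3 := Complex.I_mul_I
    linear_combination (-(2 * (Real.pi : ℂ) * z * y * (rho N y : ℂ) * (Th y : ℂ) * (Ker y : ℂ))) * h3
  rw [integral_congr_ae (Filter.Eventually.of_forall e), integral_const_mul, integral_complex_ofReal]
  have r2 : Integrable (fun y : ℝ => y * Th y * (rho N y * Ker y)) := by
    refine hi2.im.congr (Filter.Eventually.of_forall (fun y => ?_))
    simp only
    rw [ev]
    have : (y : ℂ) * Complex.I * (rho N y : ℂ) * ((Th y * Ker y : ℝ) : ℂ) =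
        ((y * Th y * (rho N y * Ker y) : ℝ) : ℂ) * Complex.I := by
      push_cast
      ring
    rw [this]
    simp
  have hp : 0 < ∫ y : ℝ, y * Th y * (rho N y * Ker y) := by
    refine int_pos_of _ r2 (fun y => ?_) (fun y hy => ?_)
    · rcases eq_or_ne y 0 with h | h
      · rw [h]; simp
      · exact (mul_pos (Th_mul_pos y h) (mul_pos (rho_pos N y) (Ker_pos y))).le
    · exact mul_pos (Th_mul_pos y hy) (mul_pos (rho_pos N y) (Ker_pos y))
  have hpi := Real.pi_pos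
  constructor
  · push_cast
    ring
  · positivity

/-- the functional minus `l` times the leading coefficient -/
noncomputable def Ph (N : ℕ) (x z l : ℂ) (Q : ℂ[X]) : ℂ :=
  Lf (cf x z) 1 (-(25 * (N : ℤ))) (NV.PG (4 * N) Q) -
    l * (2 * ∑ k ∈ K1 (4 * N), Q.eval (-(k : ℂ)) * ((A0 (4 * N) k : ℚ) : ℂ))

theorem Ph_add (N : ℕ) (hN : 1 ≤ N) (x z l : ℂ) (P Q : ℂ[X]) :
    Ph N x z l (P + Q) = Ph N x z l P + Ph N x z l Q := by
  have h1 : Lf (cf x z) 1 (-(25 * (N : ℤ))) (NV.PG (4 * N) (P + Q)) =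
      Lf (cf x z) 1 (-(25 * (N : ℤ))) (NV.PG (4 * N) P) +
      Lf (cf x z) 1 (-(25 * (N : ℤ))) (NV.PG (4 * N) Q) := by
    rw [← Lf_add (cf x z) 1 (HG_PG N hN P) (HG_PG N hN Q) _ (hm N hN)]
    congr 1
    funext t
    simp only [NV.PG, eval_add]
    ring
  have h2 : ∑ k ∈ K1 (4 * N), (P + Q).eval (-(k : ℂ)) * ((A0 (4 * N) k : ℚ) : ℂ) =
      ∑ k ∈ K1 (4 * N), P.eval (-(k : ℂ)) * ((A0 (4 * N) k : ℚ) : ℂ) +
      ∑ k ∈ K1 (4 * N), Q.eval (-(k : ℂ)) * ((A0 (4 * N) k : ℚ) : ℂ) := by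
    rw [← sum_add_distrib]
    refine sum_congr rfl ?_
    intro k _
    rw [eval_add]
    ring
  unfold Ph
  rw [h1, h2]
  ring

theorem Ph_monomial (N j : ℕ) (x z l c : ℂ) :
    Ph N x z l (C c * X ^ j) = c * (x * Iint (-(25 * (N : ℤ))) (G (4 * N) j) +
      z * Iint (-(25 * (N : ℤ))) (deriv (G (4 * N) j)) - l * ((a (4 * N) j : ℚ) : ℂ)) := by
  have h1 : Lf (cf x z) 1 (-(25 * (N : ℤ))) (NV.PG (4 * N) (C c * X ^ j)) =
      c * Lf (cf x z) 1 (-(25 * (N : ℤ))) (G (4 * N) j) := by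
    rw [← Lf_const_mul]
    congr 1
    funext t
    simp only [NV.PG, G, eval_mul, eval_C, eval_pow, eval_X, pow_zero]
    ring
  have h0 : Lf (cf x z) 1 (-(25 * (N : ℤ))) (G (4 * N) j) =
      x * Iint (-(25 * (N : ℤ))) (G (4 * N) j) + z * Iint (-(25 * (N : ℤ))) (deriv (G (4 * N) j)) := by
    unfold Lf
    rw [sum_range_succ, sum_range_one, iteratedDeriv_zero, iteratedDeriv_one]
    simp only [cf, if_true, one_ne_zero, if_false]
  have h2 : 2 * ∑ k ∈ K1 (4 * N), (C c * X ^ j : ℂ[X]).eval (-(k : ℂ)) *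
      ((A0 (4 * N) k : ℚ) : ℂ) = c * ((a (4 * N) j : ℚ) : ℂ) := by
    unfold a A
    push_cast
    rw [mul_sum, mul_sum, mul_sum]
    refine sum_congr rfl ?_
    intro k _
    simp only [eval_mul, eval_C, eval_pow, eval_X]
    ring
  unfold Ph
  rw [h1, h0, h2]
  ring

/-- if all three combinations agree with `l` times the leading coefficients, the functional vanishes on
every multiple of the denominator -/
theorem Lf_zero (N : ℕ) (hN : 1 ≤ N) (x z l : ℂ)
    (hcon : ∀ j : ℕ, j ≤ 2 → x * Iint (-(25 * (N : ℤ))) (G (4 * N) j) +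
      z * Iint (-(25 * (N : ℤ))) (deriv (G (4 * N) j)) = l * ((a (4 * N) j : ℚ) : ℂ)) (W : ℂ[X]) :
    Lf (cf x z) 1 (-(25 * (N : ℤ))) (NV.PG (4 * N) (NV.denP (4 * N) * W)) = 0 := by
  set n : ℕ := 4 * N with hn
  obtain ⟨S, q, h1, h2⟩ := NV.decomp n (NV.denP n * W)
  have h3 := NV.cubic_zero n W S q h1 h2
  have hq : Ph N x z l q = 0 := by
    have e : q = C (q.coeff 0) * X ^ 0 + (C (q.coeff 1) * X ^ 1 + C (q.coeff 2) * X ^ 2) := by
      have h4 := q.as_sum_range_C_mul_X_pow' (show q.natDegree < 4 by omega)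
      rw [sum_range_succ, sum_range_succ, sum_range_succ, sum_range_succ, sum_range_zero, h3] at h4
      rw [h4]
      simp
      ring
    rw [e, Ph_add N hN, Ph_add N hN, Ph_monomial, Ph_monomial, Ph_monomial]
    rw [hcon 0 (by omega), hcon 1 (by omega), hcon 2 (by omega)]
    ring
  have hES : Ph N x z l (NV.ES n S) = 0 := by
    unfold Ph
    rw [Lf_ES N hN, NV.sum_ES n (by omega) S]
    ring
  have hall : Ph N x z l (NV.denP n * W) = 0 := by
    rw [h1, Ph_add N hN, hq, hES, add_zero]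
  have hs : ∑ k ∈ K1 n, (NV.denP n * W).eval (-(k : ℂ)) * ((A0 n k : ℚ) : ℂ) = 0 := by
    refine sum_eq_zero ?_
    intro k hk
    have : den n (-(k : ℂ)) = 0 := by
      unfold den
      rw [prod_eq_zero hk (by ring), zero_mul]
    rw [eval_mul, NV.denP_eval, this]
    ring
  unfold Ph at hall
  rw [← hn, hs, mul_zero, mul_zero, sub_zero] at hall
  exact hall

end NV4

/-- **Non-vanishing of the pair.** -/
theorem nonvanish4 (N : ℕ) (hN : 1 ≤ N) (x y l : ℂ)
    (h : ∀ j : ℕ, j ≤ 2 → x * F3 N j + y * F4 N j = l * ((a (4 * N) j : ℚ) : ℂ)) :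
    x = 0 ∧ y = 0 := by
  have hcon : ∀ j : ℕ, j ≤ 2 → x * Iint (-(25 * (N : ℤ))) (G (4 * N) j) +
      (-y) * Iint (-(25 * (N : ℤ))) (deriv (G (4 * N) j)) = l * ((a (4 * N) j : ℚ) : ℂ) := by
    intro j hj
    rw [← h j hj]
    unfold F3 F4
    ring
  have h0 := NV4.Lf_zero N hN x (-y) l hcon
  have h1 := h0 (NV4.Wc N * 1)
  obtain ⟨e1, p1⟩ := NV4.test1 N hN x (-y)
  rw [e1] at h1
  have hx : x = 0 := by
    rcases mul_eq_zero.mp h1 with h2 | h2
    · exact h2
    · exact absurd h2 (by exact_mod_cast p1.ne')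
  subst hx
  have h3 := h0 (NV4.Wc N * (X - C (((-(25 * (N : ℤ)) : ℤ) : ℂ) - 1 / 2)))
  obtain ⟨e2, p2⟩ := NV4.test2 N hN (-y)
  rw [e2] at h3
  refine ⟨rfl, ?_⟩
  rcases mul_eq_zero.mp h3 with h4 | h4
  · exact neg_eq_zero.mp h4
  · exact absurd h4 (by exact_mod_cast p2.ne')

end Pool.Agent.Z34
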