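import Pool.Agent.Z3.Sum
import Pool.Agent.Z3.Sum2

/-!
The growth of the common denominator for the forms in zeta(4): one more factor p for every prime
p <= 27 n + 1 than for the forms in zeta(3).
-/

open Finset Filter Topology

namespace Pool.Agent.Z34

open Pool.Agent.Z3

/-- the sum of the logarithms of the primes up to 27 n + 1 -/
theorem sum_27 : ∀ᶠ n : ℕ in atTop,
    ∑ p ∈ ((range (40 * n + 3)).filter Nat.Prime).filter (fun p => p ≤ 27 * n + 1),
      Real.log (p : ℝ) ≤ 27.0001 * n := by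
  have ht : Tendsto (fun n : ℕ => (27 * (n : ℝ) + 1)) atTop atTop :=
    tendsto_atTop_add_const_right _ _
      (tendsto_natCast_atTop_atTop.const_mul_atTop (by norm_num))
  have h1 := (PNT.theta_asymp.comp ht).eventually_lt_const (show (1 : ℝ) < 1 + 1 / 1000000 by norm_num)
  filter_upwards [h1, eventually_ge_atTop 1000000] with n hn hn1
  have hn0 : (1000000 : ℝ) ≤ n := by exact_mod_cast hn1
  simp only [Function.comp_apply] at hn
  rw [div_lt_iff₀ (by linarith)] at hn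
  have h2 : ∑ p ∈ ((range (40 * n + 3)).filter Nat.Prime).filter (fun p => p ≤ 27 * n + 1),
      Real.log (p : ℝ) = Chebyshev.theta (27 * (n : ℝ) + 1) := by
    have hfl : ⌊(27 * (n : ℝ) + 1)⌋₊ = 27 * n + 1 := by
      have : (27 * (n : ℝ) + 1) = ((27 * n + 1 : ℕ) : ℝ) := by push_cast; ring
      rw [this, Nat.floor_natCast]
    rw [Chebyshev.theta, hfl]
    refine Finset.sum_congr ?_ fun _ _ => rfl
    ext p
    simp only [mem_filter, mem_range, Finset.mem_Ioc]
    constructor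
    · rintro ⟨⟨_, h4⟩, h5⟩
      exact ⟨⟨h4.pos, h5⟩, h4⟩
    · rintro ⟨⟨h3, h4⟩, h5⟩
      exact ⟨⟨by omega, h5⟩, h4⟩
  rw [h2]
  have h3 : (1 + 1 / 1000000 : ℝ) * (27 * n + 1) ≤ 27.0001 * n := by nlinarith
  linarith

open Classical in
theorem sum_gen (ex ex4 : ℕ → ℕ → ℕ) (c : ℝ)
    (hex : ∀ᶠ n : ℕ in atTop,
      ∑ p ∈ (range (40 * n + 3)).filter Nat.Prime, (ex n p : ℝ) * Real.log (p : ℝ) ≤ c * n)
    (h4 : ∀ n p : ℕ, ex4 n p ≤ ex n p + (if p ≤ 27 * n + 1 then 1 else 0) +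
      (if p ^ 2 ≤ 40 * n + 2 ∨ ¬ Good n p then 3 * Nat.log p (40 * n + 2) else 0)) :
    ∀ᶠ n : ℕ in atTop, ∑ p ∈ (range (40 * n + 3)).filter Nat.Prime,
      (ex4 n p : ℝ) * Real.log (p : ℝ) ≤ (c + 27.0002) * n := by
  filter_upwards [hex, sum_27, sum_bad 0.0001 (by norm_num)] with n h1 h2 h3
  have h5 := h3 (((range (40 * n + 3)).filter Nat.Prime).filter
      (fun p => p ^ 2 ≤ 40 * n + 2 ∨ ¬ Good n p)) (by
    intro p hp
    rw [mem_filter, mem_filter, mem_range] at hp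
    exact ⟨hp.1.2, by omega, hp.2⟩)
  have h6 : ∑ p ∈ (range (40 * n + 3)).filter Nat.Prime, (ex4 n p : ℝ) * Real.log (p : ℝ) ≤
      ∑ p ∈ (range (40 * n + 3)).filter Nat.Prime, ((ex n p : ℝ) * Real.log (p : ℝ) +
        (if p ≤ 27 * n + 1 then Real.log (p : ℝ) else 0) +
        (if p ^ 2 ≤ 40 * n + 2 ∨ ¬ Good n p then
          (3 * (Nat.log p (40 * n + 2) : ℝ)) * Real.log (p : ℝ) else 0)) := by
    refine Finset.sum_le_sum fun p hp => ?_
    rw [mem_filter] at hp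
    have hl : 0 ≤ Real.log (p : ℝ) := Real.log_nonneg (by exact_mod_cast hp.2.one_lt.le)
    have h7 : (ex4 n p : ℝ) ≤ (ex n p : ℝ) + (if p ≤ 27 * n + 1 then 1 else 0) +
        (if p ^ 2 ≤ 40 * n + 2 ∨ ¬ Good n p then (3 * (Nat.log p (40 * n + 2) : ℝ)) else 0) := by
      have := h4 n p
      have h8 : (ex4 n p : ℝ) ≤ ((ex n p + (if p ≤ 27 * n + 1 then 1 else 0) +
        (if p ^ 2 ≤ 40 * n + 2 ∨ ¬ Good n p then 3 * Nat.log p (40 * n + 2) else 0) : ℕ) : ℝ) := by
        exact_mod_cast this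
      refine h8.trans (le_of_eq ?_)
      push_cast
      split_ifs <;> simp
    refine (mul_le_mul_of_nonneg_right h7 hl).trans (le_of_eq ?_)
    split_ifs <;> ring
  rw [Finset.sum_add_distrib, Finset.sum_add_distrib, ← Finset.sum_filter, ← Finset.sum_filter] at h6
  linarith

end Pool.Agent.Z34
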