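import Pool.Agent.Z34.Defs
import Pool.Agent.Z34.SumAux

/-!
The growth of the common denominator for the forms in zeta(4): `log (D4 n) ≤ 63.19 n` for large `n`.
-/

open Finset Filter Topology

namespace Pool.Agent.Z34

open Pool.Agent.Z3

open Classical in
theorem ex4_le (n p : ℕ) : ex4 n p ≤ ex n p + (if p ≤ 27 * n + 1 then 1 else 0) +
    (if p ^ 2 ≤ 40 * n + 2 ∨ ¬ Good n p then 3 * Nat.log p (40 * n + 2) else 0) := by
  unfold ex4 ex
  split_ifs <;> omega

theorem log_D4_eq (n : ℕ) : Real.log (D4 n : ℝ) =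
    ∑ p ∈ (range (40 * n + 3)).filter Nat.Prime, (ex4 n p : ℝ) * Real.log (p : ℝ) := by
  unfold D4
  rw [Nat.cast_prod, Real.log_prod]
  · refine Finset.sum_congr rfl fun p _ => ?_
    rw [Nat.cast_pow, Real.log_pow]
  · intro p hp
    rw [mem_filter] at hp
    exact_mod_cast (pow_pos hp.2.pos _).ne'

/-- **the growth of the denominator** -/
theorem log_D4 : ∀ᶠ n : ℕ in atTop, Real.log (D4 n : ℝ) ≤ 63.19 * n := by
  have h := sum_gen ex ex4 36.18 (by
    filter_upwards [log_Dn] with n hn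
    rwa [log_Dn_eq] at hn) ex4_le
  filter_upwards [h] with n hn
  rw [log_D4_eq]
  have : (0 : ℝ) ≤ n := Nat.cast_nonneg n
  linarith

/-- at the points `n = 4 N` -/
theorem log_D4' : ∀ᶠ N : ℕ in atTop, Real.log (D4 (4 * N) : ℝ) ≤ 252.76 * N := by
  have ht : Tendsto (fun N : ℕ => 4 * N) atTop atTop :=
    tendsto_atTop_mono (fun N => by simp only [id]; omega) tendsto_id
  filter_upwards [ht.eventually log_D4] with N hN
  refine hN.trans (le_of_eq ?_)
  push_cast
  ring

end Pool.Agent.Z34
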