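import Pool.Agent.Z34.Concl4
import Pool.Agent.Z34.Form4
import Pool.Agent.Z34.Bound4
import Pool.Agent.Z34.Int4
import Pool.Agent.Z34.Sum4
import Pool.Agent.Z34.Nonvan4
import Pool.Agent.Z3.Form
import Pool.Agent.Z3.FBound2
import Pool.Agent.Z3.ABound2
import Pool.Agent.Z23.Measure

/-!
# Linear independence of 1, zeta(3), zeta(4) over the rationals, with a measure
-/

open Filter Topology Finset

namespace Pool.Agent.Z34

open Pool.Agent.Z3

/-- the leading coefficient does not vanish -/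
theorem a_ne (n : ℕ) (hn : 1 ≤ n) : a n 0 ≠ 0 := by
  have h : 0 < a n 0 := by
    unfold a
    refine mul_pos (by norm_num) (sum_pos' (fun k _ => ?_) ⟨20 * n, ?_, ?_⟩)
    · unfold A
      rw [pow_zero, one_mul]
      exact A0_nonneg n k
    · unfold K1
      rw [mem_Ico]
      omega
    · unfold A A0 K2
      rw [pow_zero, one_mul, if_pos (by rw [mem_Ico]; omega)]
      have p1 : 0 < (20 * n).choose (17 * n) := Nat.choose_pos (by omega)
      have p2 : 0 < (20 * n - 2 * n).choose (13 * n) := Nat.choose_pos (by omega)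
      have p3 : 0 < (20 * n - 4 * n).choose (9 * n) := Nat.choose_pos (by omega)
      have p4 : 0 < (21 * n + 1).choose (20 * n - 19 * n) := Nat.choose_pos (by omega)
      have p5 : 0 < (18 * n + 1).choose (20 * n - 20 * n) := Nat.choose_pos (by omega)
      positivity
  exact h.ne'

/-- the measure for 3 zeta(4) and zeta(3) -/
theorem z34_measure : ∃ c : ℝ, 0 < c ∧ ∀ x y z : ℤ, ¬ (x = 0 ∧ y = 0 ∧ z = 0) →
    c * (|(x : ℝ)| + |(y : ℝ)| + 1) ^ (-(124 : ℝ)) ≤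
      |(x : ℝ) * (3 * zeta4) + (y : ℝ) * zeta3 + (z : ℝ)| := by
  have key : ∃ c : ℝ, 0 < c ∧ ∀ x y z : ℤ, ¬ (x = 0 ∧ y = 0 ∧ z = 0) →
      c * (|(x : ℝ)| + |(y : ℝ)| + 1) ^ (-(596.4 / 4.81 : ℝ)) ≤
        |(x : ℝ) * (3 * zeta4) + (y : ℝ) * zeta3 + (z : ℝ)| := by
    refine Z23.assemble_measure (3 * zeta4) zeta3 (fun N j => a (4 * N) j)
      (fun N j => b4 (4 * N) j) (fun N j => b (4 * N) j) (fun N => D4 (4 * N)) F4 F3
      257.58 343.629 252.76 4.81 596.4 (fun N _ => D4_pos _)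
      (fun N j hN hj => F4_eq N j hN hj) (fun N j hN hj => F_eq N j hN hj)
      (fun N hN x y l hxy => ?_) (fun N hN => a_ne _ (by omega)) F4_bound2 F_bound2 a_bound2
      log_D4' (fun N j hN hj => ?_) (by norm_num) (by norm_num) (by norm_num) (by norm_num)
    · obtain ⟨h1, h2⟩ := nonvanish4 N hN (y : ℂ) (x : ℂ) (l : ℂ) (fun j hj => by
        rw [← hxy j hj]
        ring)
      exact ⟨by exact_mod_cast h2, by exact_mod_cast h1⟩
    · obtain ⟨h1, h2, h3⟩ := D4_integral (4 * N) j (by omega) hj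
      exact ⟨h1, h3, h2⟩
  obtain ⟨c, hc, H⟩ := key
  refine ⟨c, hc, fun x y z hne => le_trans ?_ (H x y z hne)⟩
  refine mul_le_mul_of_nonneg_left ?_ hc.le
  have h0 : 0 ≤ |(x : ℝ)| + |(y : ℝ)| := by positivity
  exact Real.rpow_le_rpow_of_exponent_le (by linarith) (by norm_num)

/-- the integer relations -/
theorem z34_int (x y z : ℤ) (h : (x : ℝ) * (3 * zeta4) + (y : ℝ) * zeta3 + (z : ℝ) = 0) :
    x = 0 ∧ y = 0 ∧ z = 0 := by
  by_contra hne
  obtain ⟨c, hc, H⟩ := z34_measure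
  have h1 := H x y z hne
  rw [h, abs_zero] at h1
  have h2 : 0 < (|(x : ℝ)| + |(y : ℝ)| + 1) ^ (-(124 : ℝ)) := by positivity
  nlinarith

/-- the linear independence measure of 1, pi ^ 4, zeta(3) -/
theorem z34_measure_pi : ∃ c : ℝ, 0 < c ∧ ∀ x y z : ℤ, ¬ (x = 0 ∧ y = 0 ∧ z = 0) →
    c * (max |(y : ℝ)| |(z : ℝ)| + 1) ^ (-(124 : ℝ)) ≤
      |(x : ℝ) + (y : ℝ) * Real.pi ^ 4 + (z : ℝ) * ∑' n : ℕ, 1 / ((n : ℝ) + 1) ^ 3| :=
  measure_pi4 124 (by norm_num) z34_measure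

/-- **1, zeta(3), zeta(4) are linearly independent over the rationals.** -/
theorem z34_riemannZeta : LinearIndependent ℚ ![(1 : ℂ), riemannZeta 3, riemannZeta 4] :=
  linInd_riemannZeta4 z34_int

/-- **1, zeta(3), pi ^ 4 are linearly independent over the rationals.** -/
theorem z34_pi : LinearIndependent ℚ ![(1 : ℝ), ∑' n : ℕ, 1 / ((n : ℝ) + 1) ^ 3, Real.pi ^ 4] :=
  linInd_pi4 z34_int

/-- **zeta(3) / pi ^ 4 is irrational.** -/
theorem z34_irrational : Irrational ((∑' n : ℕ, 1 / ((n : ℝ) + 1) ^ 3) / Real.pi ^ 4) :=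
  irrational_div4 z34_int

end Pool.Agent.Z34
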