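import Pool.Agent.Z34.Cancel4
import Pool.Agent.Z34.GapRed

/-!
Cells with exactly one gap in which phi is -1: the cancellation applies to the form in zeta(4).
-/

open Finset

namespace Pool.Agent.Z34

open Pool.Agent.Z3

theorem red4_bound (n p N0 P0 c1 : ℕ) (L : List ℕ) (hn : 1 ≤ n) (hp : p.Prime)
    (hp2 : 40 * n + 2 < p ^ 2) (hg : Good n p) (hc : SameCell n p N0 P0)
    (hr : redCheck N0 P0 c1 L = true) : PB4 n p (2 - e00 N0 P0) := by
  obtain ⟨⟨s1, s2, pi, g⟩, he⟩ := gap_of_red n p N0 P0 c1 L hn hp hp2 hg hc hr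
  rw [← he]
  exact cancel4 g

end Pool.Agent.Z34
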