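import Pool.Agent.Z34.Defs
import Pool.Agent.Z3.Term

/-!
Termwise p-adic bounds for the rational part of the form in zeta(4).
-/

open Finset

namespace Pool.Agent.Z34

open Pool.Agent.Z3 Pool.Agent.Z3.TermAux

namespace TermAux4

/-- bounds of all terms give PB4 -/
theorem PB4_of_terms (n p : ℕ) (hp : p.Prime) (w : ℤ)
    (h2 : ∀ k ∈ K1 n, padicNorm p (A0 n k) * padicNorm p (H 4 (k - 13 * n)) ≤ (p : ℚ) ^ w)
    (h3 : ∀ k ∈ K1 n, padicNorm p (A0 n k) * padicNorm p (H 3 (k - 13 * n)) ≤ (p : ℚ) ^ w)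
    (h4 : ∀ k ∈ K1 n, padicNorm p (B0 n k) * padicNorm p (H 3 (k - 13 * n)) ≤ (p : ℚ) ^ w) : PB4 n p w := by
  haveI := Fact.mk hp
  have hp0 : (0 : ℚ) < p := by exact_mod_cast hp.pos
  have hw : (0 : ℚ) ≤ (p : ℚ) ^ w := by positivity
  have h2' := padicNorm_two_le p hp
  have h6' : padicNorm p 6 ≤ 1 := by exact_mod_cast padicNorm.of_nat (p := p) 6
  intro j _
  unfold b4
  apply padicNorm.sum_le' _ hw
  intro k hk
  refine padicNorm.nonarchimedean.trans (max_le ?_ ?_)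
  · rw [padicNorm.mul, padicNorm.mul]
    calc padicNorm p 6 * padicNorm p (A n j k) * padicNorm p (H 4 (k - 13 * n))
        ≤ 1 * padicNorm p (A0 n k) * padicNorm p (H 4 (k - 13 * n)) := by
          apply mul_le_mul_of_nonneg_right _ (padicNorm.nonneg _)
          exact mul_le_mul h6' (norm_A_le n j k p hp) (padicNorm.nonneg _) (by norm_num)
      _ = padicNorm p (A0 n k) * padicNorm p (H 4 (k - 13 * n)) := by rw [one_mul]
      _ ≤ _ := h2 k hk
  · rw [padicNorm.mul, padicNorm.mul]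
    calc padicNorm p 2 * padicNorm p (B n j k) * padicNorm p (H 3 (k - 13 * n))
        ≤ 1 * max (padicNorm p (B0 n k)) (padicNorm p (A0 n k)) * padicNorm p (H 3 (k - 13 * n)) := by
          apply mul_le_mul_of_nonneg_right _ (padicNorm.nonneg _)
          exact mul_le_mul h2' (norm_B_le n j k p hp) (padicNorm.nonneg _) (by norm_num)
      _ = max (padicNorm p (B0 n k)) (padicNorm p (A0 n k)) * padicNorm p (H 3 (k - 13 * n)) := by
          rw [one_mul]
      _ ≤ _ := by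
          rcases max_choice (padicNorm p (B0 n k)) (padicNorm p (A0 n k)) with h | h <;> rw [h]
          · exact h4 k hk
          · exact h3 k hk

theorem sub_lt_sq {n p k : ℕ} (hp2 : 40 * n + 2 < p ^ 2) (hk : k ∈ K1 n) : k - 13 * n < p ^ 2 := by
  have := (mem_lt hp2).2.2.2.1 hk
  omega

/-- a class that contains `k - p` in the first two zero blocks -/
theorem two_le_nu (n p k : ℕ) (hkp : p + 13 * n ≤ k) (hkn : k < p + 15 * n) : 2 ≤ nu n p k := by
  have hmod : (k - p) % p = k % p := (Nat.mod_eq_sub_mod (by omega)).symm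
  have h1 : 1 ≤ cnt (N1 n) p (k % p) := by
    apply cnt_pos (N1 n) p (k - p) k _ hmod
    unfold N1; rw [mem_Ico]; omega
  have h2 : 1 ≤ cnt (N2 n) p (k % p) := by
    apply cnt_pos (N2 n) p (k - p) k _ hmod
    unfold N2; rw [mem_Ico]; omega
  unfold nu
  omega

theorem K2_lt {n k : ℕ} (hk : k ∈ K2 n) : k < 38 * n + 2 := by
  unfold K2 at hk; rw [mem_Ico] at hk; exact hk.2

theorem K1_lt {n k : ℕ} (hk : k ∈ K1 n) : k < 40 * n + 2 := by
  unfold K1 at hk; rw [mem_Ico] at hk; exact hk.2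

/-- the term with A0, non-polar index -/
theorem A_small (n p k r : ℕ) (hn : 1 ≤ n) (hp : p.Prime) (hp2 : 40 * n + 2 < p ^ 2) (h : 21 * n + 1 < p)
    (hpol : k - 13 * n < p) (w : ℤ) (hw : 0 ≤ w) :
    padicNorm p (A0 n k) * padicNorm p (H r (k - 13 * n)) ≤ (p : ℚ) ^ w := by
  have hp1 : (1 : ℚ) ≤ p := by exact_mod_cast hp.one_le
  calc padicNorm p (A0 n k) * padicNorm p (H r (k - 13 * n)) ≤ 1 * 1 :=
        mul_le_mul (big_A0_le n p k hn hp hp2 h) (norm_H_small p r _ hp hpol) (padicNorm.nonneg _) (by norm_num)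
    _ = 1 := one_mul 1
    _ ≤ _ := one_le_zpow₀ hp1 hw

/-- the term with B0, non-polar index -/
theorem B_small (n p k r : ℕ) (hn : 1 ≤ n) (hp : p.Prime) (hp2 : 40 * n + 2 < p ^ 2) (h : 21 * n + 1 < p)
    (hk : k ∈ K1 n) (hpol : k - 13 * n < p) (w : ℤ) (hw : 0 ≤ w) :
    padicNorm p (B0 n k) * padicNorm p (H r (k - 13 * n)) ≤ (p : ℚ) ^ w := by
  have hp1 : (1 : ℚ) ≤ p := by exact_mod_cast hp.one_le
  calc padicNorm p (B0 n k) * padicNorm p (H r (k - 13 * n)) ≤ 1 * 1 :=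
        mul_le_mul (big_B0_le n p k hn hp hp2 h hk) (norm_H_small p r _ hp hpol) (padicNorm.nonneg _) (by norm_num)
    _ = 1 := one_mul 1
    _ ≤ _ := one_le_zpow₀ hp1 hw

/-- the term with A0, no double pole -/
theorem A_zero (n p k r : ℕ) (hp : p.Prime) (hk2 : k ∉ K2 n) (w : ℤ) :
    padicNorm p (A0 n k) * padicNorm p (H r (k - 13 * n)) ≤ (p : ℚ) ^ w := by
  have hp0 : (0 : ℚ) < p := by exact_mod_cast hp.pos
  rw [A0_zero n k hk2, padicNorm.zero, zero_mul]
  positivity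

/-- product of a bound `p^(-a)` and of the bound of `H` -/
theorem mul_H_le (n p k r : ℕ) (hp : p.Prime) (hp2 : 40 * n + 2 < p ^ 2) (hk : k ∈ K1 n) (x : ℚ) (u w : ℤ)
    (hx : padicNorm p x ≤ (p : ℚ) ^ u) (huw : u + r ≤ w) :
    padicNorm p x * padicNorm p (H r (k - 13 * n)) ≤ (p : ℚ) ^ w := by
  have hp1 : (1 : ℚ) ≤ p := by exact_mod_cast hp.one_le
  have hp0 : (0 : ℚ) < p := by exact_mod_cast hp.pos
  calc padicNorm p x * padicNorm p (H r (k - 13 * n)) ≤ (p : ℚ) ^ u * (p : ℚ) ^ r :=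
        mul_le_mul hx (norm_H_le p r _ hp (sub_lt_sq hp2 hk)) (padicNorm.nonneg _) (by positivity)
    _ = (p : ℚ) ^ (u + (r : ℤ)) := by rw [zpow_add₀ hp0.ne', zpow_natCast]
    _ ≤ _ := zpow_le_zpow_right₀ hp1 huw

theorem A_nu (n p k : ℕ) (hn : 1 ≤ n) (hp : p.Prime) (hp2 : 40 * n + 2 < p ^ 2) (h : 21 * n + 1 < p)
    (hk : k ∈ K2 n) (v : ℕ) (hv : v ≤ nu n p k) : padicNorm p (A0 n k) ≤ (p : ℚ) ^ (-(v : ℤ)) := by
  have hp1 : (1 : ℚ) ≤ p := by exact_mod_cast hp.one_le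
  rw [big_A0 n p k hn hp hp2 h hk]
  exact zpow_le_zpow_right₀ hp1 (by omega)

theorem B_nu (n p k : ℕ) (hn : 1 ≤ n) (hp : p.Prime) (hp2 : 40 * n + 2 < p ^ 2) (h : 21 * n + 1 < p)
    (hk : k ∈ K1 n) (hk2 : k ∉ K2 n) (v : ℕ) (hv : v ≤ nu n p k) :
    padicNorm p (B0 n k) ≤ (p : ℚ) ^ (-(v : ℤ)) := by
  have hp1 : (1 : ℚ) ≤ p := by exact_mod_cast hp.one_le
  rw [big_B0 n p k hn hp hp2 h hk hk2]
  exact zpow_le_zpow_right₀ hp1 (by omega)

theorem B_nu_double (n p k : ℕ) (hn : 1 ≤ n) (hp : p.Prime) (hp2 : 40 * n + 2 < p ^ 2) (h : 21 * n + 1 < p)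
    (hk : k ∈ K2 n) (v : ℕ) (hv : v + 1 ≤ nu n p k) : padicNorm p (B0 n k) ≤ (p : ℚ) ^ (-(v : ℤ)) := by
  haveI := Fact.mk hp
  have hp1 : (1 : ℚ) ≤ p := by exact_mod_cast hp.one_le
  have hp0 : (0 : ℚ) < p := by exact_mod_cast hp.pos
  rw [B0_double n k hk, padicNorm.mul]
  calc padicNorm p (A0 n k) * padicNorm p (L0 n k) ≤ (p : ℚ) ^ (-((v + 1 : ℕ) : ℤ)) * p :=
        mul_le_mul (A_nu n p k hn hp hp2 h hk (v + 1) hv) (norm_L0_le n p k hp hp2 (Z3.TermAux.K2_sub hk))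
          (padicNorm.nonneg _) (by positivity)
    _ = (p : ℚ) ^ (-(v : ℤ)) := by
        rw [← zpow_add_one₀ hp0.ne']; congr 1; push_cast; ring

end TermAux4

open TermAux4

theorem termwise4 (n p : ℕ) (hn : 1 ≤ n) (hp : p.Prime) (hp2 : 40 * n + 2 < p ^ 2) (m : ℤ)
    (hm : ∀ s < p, m ≤ phi n p s) : PB4 n p (2 - m - e0 n p) := by
  have hmk : ∀ k, m ≤ phi n p (k % p) := fun k => hm _ (Nat.mod_lt _ hp.pos)
  apply PB4_of_terms n p hp
  · intro k hk
    exact mul_H_le n p k 4 hp hp2 hk _ _ _ (norm_A0_le n p k hn hp hp2 m (hmk k)) (by push_cast; linarith)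
  · intro k hk
    exact mul_H_le n p k 3 hp hp2 hk _ _ _ (norm_A0_le n p k hn hp hp2 m (hmk k)) (by push_cast; linarith)
  · intro k hk
    exact mul_H_le n p k 3 hp hp2 hk _ _ _ (norm_B0_le n p k hn hp hp2 m hk (hmk k)) (by push_cast; linarith)

theorem big4a (n p : ℕ) (hn : 1 ≤ n) (hp : p.Prime) (hp2 : 40 * n + 2 < p ^ 2)
    (h : 21 * n + 1 < p) : PB4 n p 3 := by
  apply PB4_of_terms n p hp
  · intro k hk
    by_cases hpol : k - 13 * n < p
    · exact A_small n p k 4 hn hp hp2 h hpol 3 (by norm_num)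
    · by_cases hk2 : k ∈ K2 n
      · have := K2_lt hk2
        exact mul_H_le n p k 4 hp hp2 hk _ _ _
          (A_nu n p k hn hp hp2 h hk2 1 (nu_pos n p k (by omega) (by omega))) (by norm_num)
      · exact A_zero n p k 4 hp hk2 3
  · intro k hk
    exact mul_H_le n p k 3 hp hp2 hk _ 0 _ (by rw [zpow_zero]; exact big_A0_le n p k hn hp hp2 h) (by norm_num)
  · intro k hk
    exact mul_H_le n p k 3 hp hp2 hk _ 0 _ (by rw [zpow_zero]; exact big_B0_le n p k hn hp hp2 h hk)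
      (by norm_num)

theorem big4b (n p : ℕ) (hn : 1 ≤ n) (hp : p.Prime) (hp2 : 40 * n + 2 < p ^ 2)
    (h : 23 * n + 1 < p) : PB4 n p 2 := by
  have h21 : 21 * n + 1 < p := by omega
  have hA : ∀ k ∈ K1 n, ∀ r : ℕ, r ≤ 4 → padicNorm p (A0 n k) * padicNorm p (H r (k - 13 * n)) ≤ (p : ℚ) ^ (2 : ℤ) := by
    intro k hk r hr
    by_cases hpol : k - 13 * n < p
    · exact A_small n p k r hn hp hp2 h21 hpol 2 (by norm_num)
    · by_cases hk2 : k ∈ K2 n
      · have := K2_lt hk2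
        exact mul_H_le n p k r hp hp2 hk _ _ _
          (A_nu n p k hn hp hp2 h21 hk2 2 (two_le_nu n p k (by omega) (by omega))) (by push_cast; omega)
      · exact A_zero n p k r hp hk2 2
  apply PB4_of_terms n p hp
  · exact fun k hk => hA k hk 4 le_rfl
  · exact fun k hk => hA k hk 3 (by norm_num)
  · intro k hk
    by_cases hpol : k - 13 * n < p
    · exact B_small n p k 3 hn hp hp2 h21 hk hpol 2 (by norm_num)
    · by_cases hk2 : k ∈ K2 n
      · have := K2_lt hk2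
        exact mul_H_le n p k 3 hp hp2 hk _ _ _
          (B_nu_double n p k hn hp hp2 h21 hk2 1 (two_le_nu n p k (by omega) (by omega))) (by norm_num)
      · have := K1_lt hk
        exact mul_H_le n p k 3 hp hp2 hk _ _ _
          (B_nu n p k hn hp hp2 h21 hk hk2 1 (nu_pos n p k (by omega) (by omega))) (by norm_num)

theorem big4c (n p : ℕ) (hn : 1 ≤ n) (hp : p.Prime) (hp2 : 40 * n + 2 < p ^ 2)
    (h : 25 * n + 1 < p) : PB4 n p 1 := by
  have h21 : 21 * n + 1 < p := by omega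
  have hA : ∀ k ∈ K1 n, ∀ r : ℕ, padicNorm p (A0 n k) * padicNorm p (H r (k - 13 * n)) ≤ (p : ℚ) ^ (1 : ℤ) := by
    intro k hk r
    by_cases hk2 : k ∈ K2 n
    · have := K2_lt hk2
      exact A_small n p k r hn hp hp2 h21 (by omega) 1 (by norm_num)
    · exact A_zero n p k r hp hk2 1
  apply PB4_of_terms n p hp
  · exact fun k hk => hA k hk 4
  · exact fun k hk => hA k hk 3
  · intro k hk
    by_cases hpol : k - 13 * n < p
    · exact B_small n p k 3 hn hp hp2 h21 hk hpol 1 (by norm_num)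
    · have hk2 : k ∉ K2 n := by
        intro hk2
        have := K2_lt hk2
        omega
      have := K1_lt hk
      exact mul_H_le n p k 3 hp hp2 hk _ _ _
        (B_nu n p k hn hp hp2 h21 hk hk2 2 (two_le_nu n p k (by omega) (by omega))) (by norm_num)

theorem big4d (n p : ℕ) (hn : 1 ≤ n) (hp : p.Prime) (hp2 : 40 * n + 2 < p ^ 2)
    (h : 27 * n + 1 < p) : PB4 n p 0 := by
  have h21 : 21 * n + 1 < p := by omega
  apply PB4_of_terms n p hp
  · intro k hk
    have := K1_lt hk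
    exact A_small n p k 4 hn hp hp2 h21 (by omega) 0 le_rfl
  · intro k hk
    have := K1_lt hk
    exact A_small n p k 3 hn hp hp2 h21 (by omega) 0 le_rfl
  · intro k hk
    have := K1_lt hk
    exact B_small n p k 3 hn hp hp2 h21 hk (by omega) 0 le_rfl

end Pool.Agent.Z34
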