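import Pool.Agent.Z34.Red4
import Pool.Agent.Z34.Term4
import Pool.Agent.Z34.Crude4
import Pool.Agent.Z3.Table

/-!
The p-adic bounds for the form in zeta(4) for the primes `p ≤ 21 n + 1`, and the bound of all
rational numbers by the exponent function.
-/

open Finset

namespace Pool.Agent.Z34

open Pool.Agent.Z3

theorem PB4_mono {n p : ℕ} {w w' : ℤ} (hp : 1 ≤ p) (hw : w ≤ w') (h : PB4 n p w) :
    PB4 n p w' := fun j hj =>
  (h j hj).trans (zpow_le_zpow_right₀ (by exact_mod_cast hp) hw)

theorem cell4_bound (n p : ℕ) (hn : 1 ≤ n) (hp : p.Prime) (hp2 : 40 * n + 2 < p ^ 2)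
    (hg : Good n p) {c : ℕ × ℕ × ℕ × ℕ × ℕ} (hc : c ∈ cells)
    (h1 : c.1 * p < (n % p) * c.2.1) (h2 : (n % p) * c.2.2.2.1 < c.2.2.1 * p) :
    PB4 n p ((c.2.2.2.2 : ℤ) + 1) := by
  obtain ⟨N0, P0, hP, hN, hF, hinj, hcase⟩ := cells_spec c hc
  have hs := sameCell_of hp.pos hP hN hF h1 h2
  rcases hcase with h | ⟨hw, c1, L, hr⟩
  · have he := e0_cell n p N0 P0 hn hp hg hs hinj
    have h3 := termwise4 n p hn hp hp2 (1 - e00 N0 P0 - (c.2.2.2.2 : ℤ)) (fun s hs' => by
      obtain ⟨e, he1, _, _, he2⟩ := phi_cell n p N0 P0 hn hp hg hs hinj s hs'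
      rw [he2]
      exact h e he1)
    rw [he] at h3
    exact PB4_mono hp.one_le (by linarith) h3
  · exact PB4_mono hp.one_le (by linarith) (red4_bound n p N0 P0 c1 L hn hp hp2 hg hs hr)

theorem log_eq_one {n p : ℕ} (hp2 : 40 * n + 2 < p ^ 2) (hp : p ≤ 40 * n + 2) :
    Nat.log p (40 * n + 2) = 1 := by
  rw [Nat.log_eq_iff (Or.inl one_ne_zero)]
  exact ⟨by rwa [pow_one], by simpa using hp2⟩

theorem table4_bound (n p : ℕ) (hn : 1 ≤ n) (hp : p.Prime) (hp2 : 40 * n + 2 < p ^ 2)
    (hg : Good n p) (h21 : p ≤ 21 * n + 1) : PB4 n p (wtab (n % p) p + 1) := by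
  unfold wtab
  rcases hf : cells.find? (fun c => decide (c.1 * p < n % p * c.2.1 ∧
    n % p * c.2.2.2.1 < c.2.2.1 * p)) with _ | c
  · rw [hf, Option.map_none, Option.getD_none]
    have h1 := crude4 n p hn hp
    rw [log_eq_one hp2 (by omega)] at h1
    norm_num at h1 ⊢
    exact h1
  · rw [hf, Option.map_some, Option.getD_some]
    have h1 := List.find?_some hf
    have h2 := List.mem_of_find?_eq_some hf
    simp only [decide_eq_true_eq] at h1
    exact cell4_bound n p hn hp hp2 hg h2 h1.1 h1.2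

/-- all rational numbers are bounded by the exponent function -/
theorem ex4_bound (n p : ℕ) (hn : 1 ≤ n) (hp : p.Prime) :
    PBound n p (ex4 n p) ∧ PB4 n p (ex4 n p) := by
  have h1 := hp.one_le
  unfold ex4
  by_cases hb : p ^ 2 ≤ 40 * n + 2 ∨ ¬ Good n p
  · rw [if_pos hb]
    refine ⟨PBound_mono h1 ?_ (crude n p hn hp), ?_⟩
    · push_cast
      have : (0 : ℤ) ≤ Nat.log p (40 * n + 2) := Int.natCast_nonneg _
      linarith
    · have h2 := crude4 n p hn hp
      push_cast
      exact h2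
  · rw [if_neg hb]
    push Not at hb
    obtain ⟨hp2, hg⟩ := hb
    split_ifs with h27 h25 h23 h21
    · exact ⟨PBound_mono h1 (by norm_num) (big3 n p hn hp hp2 (by omega)), by
        have := big4d n p hn hp hp2 h27
        simpa using this⟩
    · exact ⟨PBound_mono h1 (by norm_num) (big3 n p hn hp hp2 h25), by
        have := big4c n p hn hp hp2 h25
        simpa using this⟩
    · exact ⟨PBound_mono h1 (by norm_num) (big2 n p hn hp hp2 h23), by
        have := big4b n p hn hp hp2 h23
        simpa using this⟩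
    · exact ⟨PBound_mono h1 (by norm_num) (big1 n p hn hp hp2 h21), by
        have := big4a n p hn hp hp2 h21
        simpa using this⟩
    · refine ⟨PBound_mono h1 (by push_cast; linarith)
        (table_bound n p hn hp hp2 hg (by omega)), ?_⟩
      have := table4_bound n p hn hp hp2 hg (by omega)
      push_cast
      exact this

end Pool.Agent.Z34
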